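import Pool.Agent.P.MP_08fd93_co.FA.F2
import Pool.Agent.P.MP_08fd93_co.FK.K6

/-! Plans for spikes row by row. -/

set_option autoImplicit false

namespace Pool.Agent.P.MP_08fd93_co.FA

open OV FN FK FL FZ PkPrtP FB FE

variable {J : Type} {F : FD J} {X : XD J} {Pr : Set (Vx J)} {G : VD J} {φ : Vx J → Vx J}
  {v l r e e' s p t x g : Vx J} {b : ℤ × ℤ} {E A B : EJ J} {m0 : J} {pL pR : Prop} {j : ℤ}
  {S Y : Set J}

/-- The condition of a plan at the top edge `e`. -/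
def Top (G : VD J) (φ : Vx J → Vx J) (E : EJ J) (m0 : J) (pL pR : Prop) (e : Vx J) : Prop :=
  SS G (P0 E) pL pR e ⊆ ∅ ∨
    (∃ f, SS G (P0 E) pL pR e ⊆ {f} ∧ (e.1 ∈ E.Sk ∨ e.1 ∈ E.Ps)) ∨
    (∃ f f', SS G (P0 E) pL pR e ⊆ {f, f'} ∧ e.1 ∈ E.Sk ∧ e.1 ∈ E.Ps) ∨
    ∃ a, Spe G φ E m0 (SS G (P0 E) pL pR (tr a e)) (tr a e)

theorem Top.spe (k : Spe G φ E m0 (SS G (P0 E) pL pR e) e) : Top G φ E m0 pL pR e :=
  Or.inr (Or.inr (Or.inr ⟨0, (tr_zero e).symm ▸ k⟩))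

/-- `A` is an admissible plan of the row `j`. -/
structure Rw (F : FD J) (j : ℤ) (A : EJ J) : Prop where
  dis : ∀ i ∈ A.Sr, i ∉ A.Sk ∧ i ∉ A.Ps
  ne : (∃ m ∈ F.L j, m.1 ∈ A.Sk) ∨ Even (F.nn j)
  alt : ∀ s ∈ F.L j, ∀ s' ∈ F.L j, s.1 ∈ A.Sk → s'.1 ∈ A.Sk → F.ρ s < F.ρ s' →
    ∃ g ∈ F.L j, g.1 ∈ A.Sr ∧ F.ρ s < F.ρ g ∧ F.ρ g < F.ρ s'

/-- `E` and `A` agree on the row `j`. -/
def Agr (F : FD J) (E : EJ J) (j : ℤ) (A : EJ J) : Prop :=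
  ∀ x ∈ F.L j, (x.1 ∈ E.Sr ↔ x.1 ∈ A.Sr) ∧ (x.1 ∈ E.Sk ↔ x.1 ∈ A.Sk) ∧ (x.1 ∈ E.Ps ↔ x.1 ∈ A.Ps)

/-- The pins of the row `j` lie in `S`. -/
def Pin (F : FD J) (E : EJ J) (j : ℤ) (S : Set J) : Prop := ∀ x ∈ F.L j, x.1 ∈ E.Pn → x.1 ∈ S

theorem Agr.pn (k : Agr F E j A) (hx : x ∈ F.L j) : x.1 ∈ E.Pn ↔ x.1 ∈ A.Pn :=
  or_congr (k x hx).1 (k x hx).2.2

theorem Agr.pin (k : Agr F E j A) : Pin F E j A.Pn := fun _ hx => (k.pn hx).1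

theorem Agr.mv (hF : Lay F X Pr) (k : Agr F E j A) (a : ℤ × ℤ) : Agr F E (j + F.η a) A :=
  fun x hx => k (tr (-a) x) ((hF.ltr a j _).1 (by rwa [tr_neg']))

theorem Pin.mv (hF : Lay F X Pr) (k : Pin F E j S) (a : ℤ × ℤ) : Pin F E (j + F.η a) S :=
  fun x hx => k (tr (-a) x) ((hF.ltr a j _).1 (by rwa [tr_neg']))

theorem Rw.mv (hF : Lay F X Pr) (k : Rw F j A) (a : ℤ × ℤ) : Rw F (j + F.η a) A := by
  refine ⟨k.dis, k.ne.imp (fun ⟨m, a1, a2⟩ => ⟨tr a m, (hF.ltr a j m).2 a1, a2⟩)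
    fun o => (FR.nn_tr hF a j).symm ▸ o, fun s hs s' hs' a1 a2 lt => ?_⟩
  obtain ⟨s, rfl⟩ := tr_surj a s
  obtain ⟨s', rfl⟩ := tr_surj a s'
  have m := (hF.ltr a j s).1 hs
  have m' := (hF.ltr a j s').1 hs'
  have := hF.rd a m m'
  obtain ⟨g, g1, g2, g3, g4⟩ := k.alt s m s' m' a1 a2 (by omega)
  have := hF.rd a m g1
  exact ⟨tr a g, (hF.ltr a j g).2 g1, g2, by omega, by omega⟩

/-- The pins `S` of the row `j` fit the plan `B` of the next row outside the orbits `Y`. -/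
def Lnk (G : VD J) (φ : Vx J → Vx J) (l r : Vx J) (j : ℤ) (S : Set J) (B : EJ J) (Y : Set J) :
    Prop :=
  ∀ E m0 pL pR, Pin (FL G) E j S → Agr (FL G) E (j + 1) B → ∀ e ∈ G.L (j + 1), e.1 ∉ Y →
    ¬ (pL ∧ e.1 = l.1) → ¬ (pR ∧ e.1 = r.1) → Top G φ E m0 pL pR e

theorem Lnk.mono {S' Y' : Set J} (k : Lnk G φ l r j S B Y) (h1 : S' ⊆ S) (h2 : Y ⊆ Y') :
    Lnk G φ l r j S' B Y' := fun E m0 pL pR a c e he n =>
  k E m0 pL pR (fun x hx m => h1 (a x hx m)) c e he fun m => n (h2 m)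

/-- `E` is a plan as soon as the tops in `Y` and the sides are right. -/
def Cls (G : VD J) (φ : Vx J → Vx J) (v l r : Vx J) (E : EJ J) (Y : Set J) : Prop :=
  ∀ m0 pL pR, pL ∨ pR → (pL ∨ HL G ∨ (pv (FL G) (G.xl v)).1 ∈ E.Pn) →
    (pR ∨ HR G ∨ (G.xl v).1 ∈ E.Pn) → (pL → l.1 ∈ Y) → (pR → r.1 ∈ Y) →
    (∀ i ∈ Y, ∃ e ∈ G.LA, e.1 = i ∧ Top G φ E m0 pL pR e) → SK G φ v E m0 pL pR

section

variable (h : SR G v l r) (hφ : PH (FL G) G.Pr φ)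
include h hφ

theorem ss_tr (he : e ∈ G.LA) (a : ℤ × ℤ) :
    SS G (P0 E) pL pR (tr a e) ⊆ Sym2.map (tr a) '' SS G (P0 E) pL pR e := by
  have hF := h.sv.lay
  have V := h.sv.vf
  have n : G.nx (tr a e) = tr a (G.nx e) := hF.nx_tr a (j := G.f e) he
  intro f m
  rcases (h.sv.ss_iff hφ ((hF.la_tr a e).2 he)).1 m with ⟨g, g1, g2, g3, -, rfl⟩ | ⟨c, i, rfl⟩ |
    ⟨c, i, rfl⟩
  · obtain ⟨g, rfl⟩ := tr_surj a g
    have g2' : g ∈ G.LA := (hF.la_tr a g).1 g2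
    have n' : G.nx (tr a g) = tr a (G.nx g) := hF.nx_tr a (j := G.f g) g2'
    exact ⟨_, (h.sv.ss_iff hφ he).2 (Or.inl ⟨g, g1, g2', tr_inj a ((hφ.eqv a g g2').symm.trans g3),
      h.nc g, rfl⟩), by rw [Sym2.map_mk, n']⟩
  · have := h.sv.isL_tr (-a) i
    rw [tr_neg] at this
    exact ⟨_, h.sv.ssL this c, by rw [Sym2.map_mk, n, V.atr, (V.xtr a _).1]⟩
  · have := h.sv.isR_tr (-a) i
    rw [tr_neg] at this
    exact ⟨_, h.sv.ssR this c, by rw [Sym2.map_mk, V.atr, (V.xtr a _).2.1]⟩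

theorem Top.orb (he : e ∈ G.LA) (q : e.1 = e'.1) (k : Top G φ E m0 pL pR e) :
    Top G φ E m0 pL pR e' := by
  obtain ⟨a, rfl⟩ : ∃ a, e' = tr a e := ⟨_, FK.eq_tr q⟩
  have m := ss_tr (E := E) (pL := pL) (pR := pR) h hφ he a
  rcases k with k | ⟨f, k, c⟩ | ⟨f, f', k, c⟩ | ⟨a', k⟩
  · exact Or.inl (m.trans (by simpa using Set.image_mono (f := Sym2.map (tr a)) k))
  · exact Or.inr (Or.inl ⟨_, m.trans (Set.image_singleton ▸ Set.image_mono k), c⟩)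
  · exact Or.inr (Or.inr (Or.inl ⟨_, _, m.trans (Set.image_pair _ f f' ▸ Set.image_mono k), c⟩))
  · exact Or.inr (Or.inr (Or.inr ⟨a' - a, by rwa [tr_tr, add_sub_cancel]⟩))

/-- the strict edges under an edge of the row `j + 1` -/
theorem ss_row {T : Set (Sym2 (Vx J))} (k : Pin (FL G) E j S) (he : e ∈ G.L (j + 1))
    (h1 : ∀ g ∈ G.L j, g.1 ∈ S → φ g = e → s(g, G.nx g) ∈ T)
    (h2 : pL → e.1 = l.1 → s(G.an (G.nx e), G.xl (G.an (G.nx e))) ∈ T)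
    (h3 : pR → e.1 = r.1 → s(G.an e, G.xl (G.an e)) ∈ T) : SS G (P0 E) pL pR e ⊆ T := by
  have hF := h.sv.lay
  refine h.sv.ss_sub hφ (hF.la he) (fun g g1 g2 g3 _ => ?_)
    (fun c i => h2 c (by obtain ⟨a, q, -⟩ := h.isL i; rw [q]; rfl))
    fun c i => h.xr _ ▸ h3 c (by obtain ⟨a, q, -⟩ := h.isR i; rw [q]; rfl)
  have a : (FL G).f (φ g) = (FL G).f g + 1 := hφ.lev hF g2
  rw [g3, hF.lf _ _ he] at a
  have m : g ∈ G.L j := (add_right_cancel a).symm ▸ g2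
  exact h1 g m (k g m g1) g3

/-- ordinary tops -/
theorem lnk_of
    (arr : ∀ g ∈ G.L j, g.1 ∈ S → (φ g).1 ∉ Y → (φ g).1 ∈ B.Sk ∨ (φ g).1 ∈ B.Ps)
    (mer : ∀ g ∈ G.L j, ∀ g' ∈ G.L j, g.1 ∈ S → g'.1 ∈ S → g.1 ≠ g'.1 → φ g = φ g' →
      (φ g).1 ∉ Y → (φ g).1 ∈ B.Sk ∧ (φ g).1 ∈ B.Ps)
    (two : ∀ g ∈ G.L j, ∀ g' ∈ G.L j, ∀ y ∈ G.L j, g.1 ∈ S → g'.1 ∈ S → y.1 ∈ S → φ g = φ g' →
      φ g = φ y → (φ g).1 ∉ Y → g.1 = g'.1 ∨ y.1 = g.1 ∨ y.1 = g'.1) :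
    Lnk G φ l r j S B Y := by
  intro E m0 pL pR k c e he n nl nr
  have hF := h.sv.lay
  have key := fun T h1 => ss_row (T := T) (pL := pL) (pR := pR) h hφ k he h1
    (fun a o => absurd ⟨a, o⟩ nl) fun a o => absurd ⟨a, o⟩ nr
  have uni : ∀ g ∈ G.L j, ∀ y, φ g = e → φ y = e → y.1 = g.1 → y = g := fun g hg y a a' q =>
    (hφ.inj1 (hF.la hg) q.symm (a.trans a'.symm)).symm
  by_cases c0 : ∃ g ∈ G.L j, g.1 ∈ S ∧ φ g = e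
  swap
  · exact Or.inl (key _ fun g a1 a2 a3 => c0 ⟨g, a1, a2, a3⟩)
  obtain ⟨g, g1, g2, rfl⟩ := c0
  by_cases c1 : ∃ g' ∈ G.L j, g'.1 ∈ S ∧ φ g' = φ g ∧ g'.1 ≠ g.1
  · obtain ⟨g', k1, k2, k3, k4⟩ := c1
    have := mer g g1 g' k1 g2 k2 k4.symm k3.symm n
    refine Or.inr (Or.inr (Or.inl ⟨s(g, G.nx g), s(g', G.nx g'), key _ fun y y1 y2 y3 => ?_,
      (c _ he).2.1.2 this.1, (c _ he).2.2.2 this.2⟩))
    rcases (two g g1 g' k1 y y1 g2 k2 y2 k3.symm y3.symm n).resolve_left k4.symm with q | q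
    exacts [Or.inl (by rw [uni g g1 y rfl y3 q]), Or.inr (by rw [uni g' k1 y k3 y3 q]; rfl)]
  · refine Or.inr (Or.inl ⟨s(g, G.nx g), key _ fun y y1 y2 y3 => ?_,
      (arr g g1 g2 n).imp (c _ he).2.1.2 (c _ he).2.2.2⟩)
    rw [uni g g1 y rfl y3 (not_not.1 fun q => c1 ⟨y, y1, y2, y3, q⟩)]
    rfl

/-- two pins -/
theorem lnk2 (hs : s ∈ G.LA) (hp : p ∈ G.LA)
    (a1 : (φ s).1 ∈ Y ∨ (φ s).1 ∈ B.Sk ∨ (φ s).1 ∈ B.Ps)
    (a2 : (φ p).1 ∈ Y ∨ (φ p).1 ∈ B.Sk ∨ (φ p).1 ∈ B.Ps)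
    (a3 : (φ s).1 = (φ p).1 → s.1 = p.1 ∨ (φ s).1 ∈ Y ∨ ((φ s).1 ∈ B.Sk ∧ (φ s).1 ∈ B.Ps)) :
    Lnk G φ l r j {s.1, p.1} B Y := by
  have f1 : ∀ g : Vx J, g.1 = s.1 → (φ g).1 = (φ s).1 := fun g q => (hφ.fst hs q.symm).symm
  have f2 : ∀ g : Vx J, g.1 = p.1 → (φ g).1 = (φ p).1 := fun g q => (hφ.fst hp q.symm).symm
  refine lnk_of h hφ (fun g _ m n => ?_) (fun g _ g' _ m m' ne q n => ?_)
    fun g _ g' _ y _ m m' m'' _ _ _ => ?_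
  · rcases m with m | m
    · rw [f1 g m] at n ⊢
      exact a1.resolve_left n
    · rw [f2 g m] at n ⊢
      exact a2.resolve_left n
  · have key : (φ s).1 = (φ p).1 ∧ s.1 ≠ p.1 ∧ (φ g).1 = (φ s).1 := by
      rcases m with m | m <;> rcases m' with m' | m'
      · exact absurd (m.trans m'.symm) ne
      · exact ⟨by rw [← f1 g m, q, f2 g' m'], fun o => ne (m.trans (o.trans m'.symm)), f1 g m⟩
      · exact ⟨by rw [← f1 g' m', ← q, f2 g m], fun o => ne (m.trans (o.symm.trans m'.symm)),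
          by rw [q, f1 g' m']⟩
      · exact absurd (m.trans m'.symm) ne
    rw [key.2.2] at n ⊢
    exact ((a3 key.1).resolve_left key.2.1).resolve_left n
  · simp only [Set.mem_insert_iff, Set.mem_singleton_iff] at m m' m''
    rcases m with m | m <;> rcases m' with m' | m' <;> rcases m'' with m'' | m'' <;>
      simp [m, m', m'']

/-- one pin -/
theorem lnk1 (hs : s ∈ G.LA) (a1 : (φ s).1 ∈ Y ∨ (φ s).1 ∈ B.Sk ∨ (φ s).1 ∈ B.Ps) :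
    Lnk G φ l r j {s.1} B Y :=
  (lnk2 h hφ hs hs a1 a1 fun _ => Or.inl rfl).mono (fun _ m => Or.inl m) subset_rfl

end

section

variable (h : SR G v l r) (H : LB (FL G) (XL G) G.Pr φ b)
include h H

/-- A plan from the plans of the rows of one period. -/
theorem sk_rows {m : ℕ} (hm : G.η b = m + 1) (R : ℕ → EJ J) (rw : ∀ k ≤ m, Rw (FL G) k (R k))
    (lk : ∀ k < m, Lnk G φ l r k (R k).Pn (R (k + 1)) Y) (lm : Lnk G φ l r m (R m).Pn (R 0) Y) :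
    ∃ E, (∀ k ≤ m, Agr (FL G) E k (R k)) ∧ Cls G φ v l r E Y := by
  have hF := H.lay
  have hm' : (FL G).η b = m + 1 := hm
  let U : (EJ J → Set J) → Set J := fun π => {i | ∃ k ≤ m, (∃ x ∈ G.L k, x.1 = i) ∧ i ∈ π (R k)}
  have hU : ∀ π, ∀ k ≤ m, ∀ x ∈ G.L k, x.1 ∈ U π ↔ x.1 ∈ π (R k) := fun π k hk x hx => by
    refine ⟨?_, fun c => ⟨k, hk, ⟨x, hx, rfl⟩, c⟩⟩
    rintro ⟨k', hk', ⟨y, hy, q⟩, c⟩
    rwa [H.lv_eq (H.lv_l hx) (H.lv_l hy) q.symm (by omega) (by omega)]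
  let E : EJ J := ⟨U EJ.Sr, U EJ.Sk, U EJ.Ps, ∅⟩
  have ag : ∀ k ≤ m, Agr (FL G) E k (R k) := fun k hk x hx =>
    ⟨hU _ k hk x hx, hU _ k hk x hx, hU _ k hk x hx⟩
  have lev : ∀ j, ∃ k ≤ m, ∃ a, j = (k : ℕ) + (FL G).η a := fun j => by
    obtain ⟨k, l, c, d⟩ := H.lv_of j
    exact ⟨k, by omega, c • b, by rw [map_zsmul, smul_eq_mul]; linear_combination d⟩
  refine ⟨E, ag, fun m0 pL pR md vL vR yl yr hY => ⟨?_, fun j => ?_, fun j => ?_, md, vL, vR,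
    fun e he => ?_⟩⟩
  · rintro _ ⟨k, hk, ⟨x, hx, rfl⟩, c⟩
    have := (rw k hk).dis _ c
    exact ⟨fun o => this.1 ((ag k hk x hx).2.1.1 o), fun o => this.2 ((ag k hk x hx).2.2.1 o)⟩
  · obtain ⟨k, hk, a, rfl⟩ := lev j
    exact ((rw k hk).mv hF a).ne.imp_left fun ⟨y, y1, y2⟩ =>
      ⟨y, y1, (((ag k hk).mv hF a) y y1).2.1.2 y2⟩
  · obtain ⟨k, hk, a, rfl⟩ := lev j
    have c := (ag k hk).mv hF a
    intro s hs s' hs' a1 a2 lt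
    obtain ⟨g, g1, g2, g3⟩ := ((rw k hk).mv hF a).alt s hs s' hs' ((c s hs).2.1.1 a1)
      ((c s' hs').2.1.1 a2) lt
    exact ⟨g, g1, (c g g1).1.2 g2, g3⟩
  · by_cases y : e.1 ∈ Y
    · obtain ⟨e', a1, a2, a3⟩ := hY _ y
      exact a3.orb h H.ph a1 a2
    obtain ⟨k, hk, a, q⟩ := lev (G.f e - 1)
    have m1 : tr (-a) e ∈ G.L (k + 1) := (hF.ltr a _ _).1 (by
      rw [tr_neg', add_right_comm, ← q, sub_add_cancel]
      exact he)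
    refine Top.orb (e := tr (-a) e) h H.ph (hF.la m1) rfl ?_
    have nl : ¬ (pL ∧ (tr (-a) e).1 = l.1) := fun o => y (o.2 ▸ yl o.1 :)
    have nr : ¬ (pR ∧ (tr (-a) e).1 = r.1) := fun o => y (o.2 ▸ yr o.1 :)
    rcases eq_or_lt_of_le hk with rfl | c
    · refine lm E m0 pL pR (ag k hk).pin ?_ _ m1 y nl nr
      have := (ag 0 (Nat.zero_le _)).mv hF b
      rwa [hm', Nat.cast_zero, zero_add] at this
    · exact lk k c E m0 pL pR (ag k hk).pin (by exact_mod_cast ag (k + 1) c) _ m1 y nl nr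

/-- The rows above `k0` are built first from the pins `S0` of the row `k0`; the rows up to `k0`
are chosen afterwards. -/
theorem flows {k0 m : ℕ} (hm : G.η b = m + 1) (hk : k0 ≤ m) {I : ℕ → Set J → Prop} {S0 : Set J}
    (i0 : I k0 S0) (st : ∀ k, k0 ≤ k → k < m → ∀ S, I k S →
      ∃ B, Rw (FL G) (k + 1 : ℕ) B ∧ Lnk G φ l r k S B ∅ ∧ I (k + 1) B.Pn) :
    ∃ S, I m S ∧ ∀ (A : ℕ → EJ J) (Y : Set J), (∀ k ≤ k0, Rw (FL G) k (A k)) → (A k0).Pn ⊆ S0 →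
      (∀ k < k0, Lnk G φ l r k (A k).Pn (A (k + 1)) Y) → Lnk G φ l r m S (A 0) Y →
      ∃ E, (∀ k ≤ k0, Agr (FL G) E k (A k)) ∧ Pin (FL G) E m S ∧
        (k0 < m → ∀ x ∈ G.L m, x.1 ∈ S → x.1 ∈ E.Pn) ∧ Cls G φ v l r E Y := by
  obtain ⟨g, e0, hg⟩ := seq_ex (α := ℕ × EJ J)
    (fun n x => x.1 = k0 + n ∧ (x.1 ≤ m → I x.1 x.2.Pn ∧ (0 < n → Rw (FL G) x.1 x.2)))
    (fun x y => x.1 < m → Lnk G φ l r x.1 x.2.Pn y.2 ∅) (k0, ⟨S0, ∅, ∅, ∅⟩)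
    ⟨rfl, fun _ => ⟨by simpa [EJ.Pn] using i0, fun c => absurd c (lt_irrefl 0)⟩⟩ fun n x hx => by
      by_cases c : x.1 < m
      · obtain ⟨B, b1, b2, b3⟩ := st x.1 (by omega) c _ (hx.2 c.le).1
        exact ⟨(x.1 + 1, B), ⟨by simp only; omega, fun _ => ⟨b3, fun _ => b1⟩⟩, fun _ => b2⟩
      · exact ⟨(x.1 + 1, x.2), ⟨by simp only; omega, fun o => by simp only at o; omega⟩,
          fun o => absurd o c⟩
  have ix : ∀ k, k0 ≤ k → (g (k - k0)).1 = k := fun k c => by rw [(hg _).1.1]; omega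
  have s0 : (g 0).2.Pn = S0 := by simp [e0, EJ.Pn]
  have im := ((hg _).1.2 (ix m hk).le).1
  rw [ix m hk] at im
  refine ⟨_, im, fun A Y rw sub lk lm => ?_⟩
  let R : ℕ → EJ J := fun k => if k ≤ k0 then A k else (g (k - k0)).2
  have r1 : ∀ k ≤ k0, R k = A k := fun k c => if_pos c
  have r2 : ∀ k, k0 < k → R k = (g (k - k0)).2 := fun k c => if_neg (not_le.2 c)
  have r3 : ∀ k, k0 ≤ k → (R k).Pn ⊆ (g (k - k0)).2.Pn := fun k c => by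
    rcases eq_or_lt_of_le c with rfl | c
    · rwa [r1 _ le_rfl, Nat.sub_self, s0]
    · rw [r2 k c]
  obtain ⟨E, a1, a2⟩ := sk_rows (Y := Y) h H hm R (fun k c => by
      rcases le_or_gt k k0 with o | o
      · exact r1 k o ▸ rw k o
      · have := ((hg (k - k0)).1.2 (by rw [ix k o.le]; exact c)).2 (by omega)
        rwa [ix k o.le, ← r2 k o] at this)
    (fun k c => by
      rcases lt_or_ge k k0 with o | o
      · rw [r1 k o.le, r1 _ o]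
        exact lk k o
      · have := (hg (k - k0)).2 (by rw [ix k o]; exact c)
        rw [ix k o, show k - k0 + 1 = k + 1 - k0 by omega, ← r2 (k + 1) (by omega)] at this
        exact this.mono (r3 k o) (Set.empty_subset _))
    (r1 0 (Nat.zero_le _) ▸ lm.mono (r3 m hk) subset_rfl)
  exact ⟨E, fun k c => r1 k c ▸ a1 k (c.trans hk), fun x hx c => r3 m hk ((a1 m le_rfl).pin x hx c),
    fun c x hx o => ((a1 m le_rfl).pn hx).2 (r2 m c ▸ o), a2⟩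

end

end Pool.Agent.P.MP_08fd93_co.FA
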