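import Pool.Agent.P.MP_08fd93_co.FA.B1
import Pool.Agent.P.MP_08fd93_co.FK.K7

/-! Standard rows; one flow and two flows above a given row. -/

set_option autoImplicit false

namespace Pool.Agent.P.MP_08fd93_co.FA

open OV FN FK FL FZ PkPrtP FB FE

variable {J : Type} {F : FD J} {X : XD J} {Pr : Set (Vx J)} {G : VD J} {φ : Vx J → Vx J}
  {v l r e s p t x d d' f : Vx J} {b : ℤ × ℤ} {E A B : EJ J} {m0 : J} {pL pR : Prop} {j : ℤ}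
  {S Y : Set J}

/-- One source and one sink. -/
def r1 (s t : Vx J) : EJ J := ⟨{s.1}, {t.1}, ∅, ∅⟩

/-- One source, one neutral pin and one sink. -/
def r2 (s p t : Vx J) : EJ J := ⟨{s.1}, {t.1}, {p.1}, ∅⟩

/-- Neutral pins only. -/
def rp (S : Set J) : EJ J := ⟨∅, ∅, S, ∅⟩

/-- Both neighbours of the sink `e` are pinned, `x` is a second arrival. -/
def rm (F : FD J) (e x : Vx J) : EJ J :=
  ⟨{(pv F e).1, (F.nx e).1} \ {x.1}, insert e.1 ({x.1} \ {(pv F e).1, (F.nx e).1}),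
    {(pv F e).1, (F.nx e).1} ∩ {x.1}, ∅⟩

theorem r1_pn (s t : Vx J) : (r1 s t).Pn = {s.1} := Set.union_empty _

theorem r2_pn (s p t : Vx J) : (r2 s p t).Pn = {s.1, p.1} := rfl

theorem rp_pn (S : Set J) : (rp S).Pn = S := Set.empty_union _

theorem rm_pn (F : FD J) (e x : Vx J) : (rm F e x).Pn = {(pv F e).1, (F.nx e).1} :=
  Set.sdiff_union_inter _ _

theorem rm_e (F : FD J) (e x : Vx J) : e.1 ∈ (rm F e x).Sk := Or.inl rfl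

theorem rm_x (F : FD J) (e x : Vx J) : x.1 ∈ (rm F e x).Sk ∨ x.1 ∈ (rm F e x).Ps := by
  by_cases c : x.1 ∈ ({(pv F e).1, (F.nx e).1} : Set J)
  exacts [Or.inr ⟨c, rfl⟩, Or.inl (Or.inr ⟨rfl, c⟩)]

theorem rw_p (S : Set J) (ev : Even (F.nn j)) : Rw F j (rp S) :=
  ⟨fun _ k => k.elim, Or.inr ev, fun _ _ _ _ k => k.elim⟩

/-- A valid choice for the arrivals `d`, `d'`: `p` is passed, `t` is the sink, `s` the source. -/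
def Pair (d d' s p t : Vx J) : Prop :=
  ((p = d ∧ t = d') ∨ (p = d' ∧ t = d)) ∧ s.1 ≠ p.1 ∧ s.1 ≠ t.1

theorem Pair.mem (k : Pair d d' s p t) (hd : d ∈ F.L j) (hd' : d' ∈ F.L j) :
    p ∈ F.L j ∧ t ∈ F.L j :=
  k.1.elim (fun o => ⟨o.1 ▸ hd, o.2 ▸ hd'⟩) fun o => ⟨o.1 ▸ hd', o.2 ▸ hd⟩

section

variable (H : LB F X Pr φ b)
include H

/-- one orbit of sinks and a source -/
theorem LB.rw_of (hs : s ∈ F.L j) (ht : ∃ y ∈ F.L j, y.1 = t.1) (n : s.1 ≠ t.1) (s1 : s.1 ∈ A.Sr)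
    (t1 : ∀ i, i ∈ A.Sk ↔ i = t.1) (dis : ∀ i ∈ A.Sr, i ∉ A.Sk ∧ i ∉ A.Ps) : Rw F j A :=
  ⟨dis, Or.inl (let ⟨y, a, c⟩ := ht; ⟨y, a, (t1 _).2 c⟩), fun _ hx _ hy a c lt =>
    let ⟨z, z1, z2, z3⟩ := H.btw hx hy hs (((t1 _).1 a).trans ((t1 _).1 c).symm)
      (fun o => n (o.trans ((t1 _).1 a))) lt
    ⟨z, z1, z2 ▸ s1, z3⟩⟩

theorem LB.rw1 (hs : s ∈ F.L j) (ht : ∃ y ∈ F.L j, y.1 = t.1) (n : s.1 ≠ t.1) :
    Rw F j (r1 s t) :=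
  H.rw_of hs ht n rfl (fun _ => Iff.rfl) fun _ k => ⟨fun o => n (k.symm.trans o), fun o => o⟩

theorem LB.rw2 (hs : s ∈ F.L j) (ht : ∃ y ∈ F.L j, y.1 = t.1) (n : s.1 ≠ t.1) (n' : s.1 ≠ p.1) :
    Rw F j (r2 s p t) :=
  H.rw_of hs ht n rfl (fun _ => Iff.rfl) fun _ k =>
    ⟨fun o => n (k.symm.trans o), fun o => n' (k.symm.trans o)⟩

/-- a vertex of the next row of the same class -/
theorem LB.wrap {m : ℕ} (hm : F.η b = m + 1) (hx : x ∈ F.L (m + 1)) : ∃ y ∈ F.L 0, y.1 = x.1 :=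
  ⟨tr (-b) x, (H.lay.ltr b _ _).1 (by rwa [tr_neg', hm, zero_add]), rfl⟩

theorem LB.three (he : e ∈ F.L j) :
    (pv F e).1 ≠ e.1 ∧ (F.nx e).1 ≠ e.1 ∧ (pv F e).1 ≠ (F.nx e).1 := by
  have hF := H.lay
  have := H.n3 j
  obtain ⟨i, rfl⟩ := (hF.mem j e).1 he
  rw [hF.nx_l, pv, hF.f_l, hF.rho]
  exact ⟨l_ne hF j (by omega) (by omega), (l_ne hF j (by omega) (by omega)).symm,
    l_ne hF j (by omega) (by omega)⟩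

theorem LB.rwm (he : e ∈ F.L j) : Rw F j (rm F e x) := by
  have hF := H.lay
  obtain ⟨n1, n2, n3⟩ := H.three he
  obtain ⟨p1, -, -⟩ := pv_mem hF he
  obtain ⟨q1, -, -⟩ := hF.nx_mem he
  have dis : ∀ i ∈ (rm F e x).Sr, i ∉ (rm F e x).Sk ∧ i ∉ (rm F e x).Ps := fun i k =>
    ⟨fun o => o.elim (fun o => k.1.elim (fun c => n1 (c.symm.trans o)) fun c =>
      n2 (c.symm.trans o)) fun o => o.2 k.1, fun o => k.2 o.2⟩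
  by_cases c : x.1 ∈ ({(pv F e).1, (F.nx e).1} : Set J)
  · have sk : ∀ i, i ∈ (rm F e x).Sk ↔ i = e.1 := fun i =>
      or_iff_left fun o => o.2 ((show i = x.1 from o.1) ▸ c)
    rcases c with c | c
    · exact H.rw_of q1 ⟨e, he, rfl⟩ n2 ⟨Or.inr rfl, fun o => n3 (c.symm.trans o.symm)⟩ sk dis
    · exact H.rw_of p1 ⟨e, he, rfl⟩ n1 ⟨Or.inl rfl, fun o => n3 (o.trans c)⟩ sk dis
  have a1 : (pv F e).1 ∈ (rm F e x).Sr := ⟨Or.inl rfl, fun o => c (Or.inl o.symm)⟩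
  have a2 : (F.nx e).1 ∈ (rm F e x).Sr := ⟨Or.inr rfl, fun o => c (Or.inr o.symm)⟩
  refine ⟨dis, Or.inl ⟨e, he, Or.inl rfl⟩, fun y hy z hz a a' lt => ?_⟩
  by_cases c1 : y.1 = e.1
  · obtain ⟨k1, k2, -⟩ := hF.nx_mem hy
    have o : (F.nx y).1 = (F.nx e).1 := by
      rw [FK.eq_tr c1.symm, hF.nx_tr _ he]
      rfl
    refine ⟨_, k1, o ▸ a2, by omega, lt_of_le_of_ne (by omega) fun q => ?_⟩
    exact (dis _ a2).1 (by rwa [← o, hF.inj k1 hz q])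
  by_cases c2 : z.1 = e.1
  · obtain ⟨k1, k2, -⟩ := pv_mem hF hz
    have o : (pv F z).1 = (pv F e).1 := by
      rw [FK.eq_tr c2.symm, pv_tr hF _ (hF.la he)]
      rfl
    refine ⟨_, k1, o ▸ a1, lt_of_le_of_ne (by omega) fun q => ?_, by omega⟩
    exact (dis _ a1).1 (by rwa [← o, ← hF.inj hy k1 q])
  have e1 : y.1 = x.1 := (a.resolve_left c1).1
  obtain ⟨g, g1, g2, g3⟩ := H.btw hy hz p1 (e1.trans (a'.resolve_left c2).1.symm)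
    (fun o => c (Or.inl (e1.symm.trans o.symm))) lt
  exact ⟨g, g1, g2 ▸ a1, g3⟩

/-- the first arrival is passed -/
theorem LB.pair_any (j : ℤ) (d d' : Vx J) : ∃ s ∈ F.L j, Pair d d' s d d' :=
  let ⟨z, a, c⟩ := H.off j d d'
  ⟨z, a, Or.inl ⟨rfl, rfl⟩, c⟩

/-- a prescribed pin -/
theorem LB.pair_pin (d d' : Vx J) (hf : f ∈ F.L j) :
    ∃ p t, ∃ s ∈ F.L j, Pair d d' s p t ∧ (s.1 = f.1 ∨ p.1 = f.1) :=
  let ⟨p, t, s, a, c, n1, n2, k, _⟩ := H.pick d d' hf hf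
  ⟨p, t, s, a, ⟨c, n1, n2⟩, k⟩

/-- exactly one pin in a proper part of the row -/
theorem LB.pair_pick (Q : J → Prop) (d d' : Vx J) (h1 : ∃ y ∈ F.L j, Q y.1)
    (h2 : ∃ y ∈ F.L j, ¬ Q y.1) : ∃ p t, ∃ s ∈ F.L j, Pair d d' s p t ∧ ¬ (Q p.1 ↔ Q s.1) := by
  by_contra c
  simp only [not_exists, not_and, not_not] at c
  obtain ⟨z, hz, z1, z2⟩ := H.off j d d'
  have k := c d d' z hz ⟨Or.inl ⟨rfl, rfl⟩, z1, z2⟩
  have k' := c d' d z hz ⟨Or.inr ⟨rfl, rfl⟩, z2, z1⟩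
  have key : ∀ y ∈ F.L j, (Q y.1 ↔ Q z.1) := fun y hy => by
    by_cases e : y.1 = d.1
    · exact e ▸ k
    by_cases e' : y.1 = d'.1
    · exact e' ▸ k'
    exact (c d d' y hy ⟨Or.inl ⟨rfl, rfl⟩, e, e'⟩).symm.trans k
  obtain ⟨y, hy, a⟩ := h1
  obtain ⟨y', hy', a'⟩ := h2
  exact a' ((key y' hy').2 ((key y hy).1 a))

end

/-- the link to a row with two flows -/
theorem lnk_pair (h : SR G v l r) (hφ : PH (FL G) G.Pr φ) {s' p' : Vx J} (hs : s ∈ G.LA)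
    (hp : p ∈ G.LA) (k : (p'.1 = (φ s).1 ∧ t.1 = (φ p).1) ∨ (p'.1 = (φ p).1 ∧ t.1 = (φ s).1)) :
    Lnk G φ l r j {s.1, p.1} (r2 s' p' t) Y := by
  rcases k with k | k
  exacts [lnk2 h hφ hs hp (Or.inr (Or.inr k.1.symm)) (Or.inr (Or.inl k.2.symm)) fun o =>
      Or.inr (Or.inr ⟨o.trans k.2.symm, k.1.symm⟩),
    lnk2 h hφ hs hp (Or.inr (Or.inl k.2.symm)) (Or.inr (Or.inr k.1.symm)) fun o =>
      Or.inr (Or.inr ⟨k.2.symm, o.trans k.1.symm⟩)]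

/-- The rows up to `k0` complete the plan whose last row `m` has the pins `S`. -/
def Fin0 (G : VD J) (φ : Vx J → Vx J) (v l r : Vx J) (k0 m : ℕ) (S0 S : Set J) : Prop :=
  ∀ (A : ℕ → EJ J) (Y : Set J), (∀ k ≤ k0, Rw (FL G) k (A k)) → (A k0).Pn ⊆ S0 →
    (∀ k < k0, Lnk G φ l r k (A k).Pn (A (k + 1)) Y) → Lnk G φ l r m S (A 0) Y →
    ∃ E, (∀ k ≤ k0, Agr (FL G) E k (A k)) ∧ Pin (FL G) E m S ∧
      (k0 < m → ∀ x ∈ G.L m, x.1 ∈ S → x.1 ∈ E.Pn) ∧ Cls G φ v l r E Y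

section

variable (h : SR G v l r) (H : LB (FL G) (XL G) G.Pr φ b)
include h H

/-- One flow from the source `s0` of the row `k0` with an invariant `C`. -/
theorem flow1 {k0 m : ℕ} (hm : G.η b = m + 1) (hk : k0 ≤ m) {C : ℕ → Vx J → Prop} {s0 : Vx J}
    (h0 : s0 ∈ G.L k0) (c0 : C k0 s0) (st : ∀ k, k0 ≤ k → k < m → ∀ s ∈ G.L k, C k s →
      ∃ s' ∈ G.L (k + 1 : ℕ), s'.1 ≠ (φ s).1 ∧ C (k + 1) s') :
    ∃ s ∈ G.L m, C m s ∧ Fin0 G φ v l r k0 m {s0.1} {s.1} := by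
  obtain ⟨_, ⟨s, a1, a2, rfl⟩, a3⟩ := flows h H hm hk
    (I := fun k S => ∃ s ∈ G.L k, C k s ∧ S = {s.1}) ⟨s0, h0, c0, rfl⟩ (by
      rintro k k1 k2 _ ⟨s, s1, s2, rfl⟩
      obtain ⟨s', t1, t2, t3⟩ := st k k1 k2 s s1 s2
      exact ⟨r1 s' (φ s), H.rw1 t1 ⟨_, H.up s1, rfl⟩ t2,
        lnk1 h H.ph (H.lay.la s1) (Or.inr (Or.inl rfl)), s', t1, t3, r1_pn _ _⟩)
  exact ⟨s, a1, a2, a3⟩

/-- Two flows from the pins `s0`, `p0` of the row `k0` with an invariant `C`. -/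
theorem flow2 {k0 m : ℕ} (hm : G.η b = m + 1) (hk : k0 ≤ m) {C : ℕ → Vx J → Vx J → Prop}
    {s0 p0 : Vx J} (h0 : s0 ∈ G.L k0) (h0' : p0 ∈ G.L k0) (c0 : C k0 s0 p0)
    (st : ∀ k, k0 ≤ k → k < m → ∀ s ∈ G.L k, ∀ p ∈ G.L k, C k s p →
      ∃ p' t', ∃ s' ∈ G.L (k + 1 : ℕ), Pair (φ s) (φ p) s' p' t' ∧ C (k + 1) s' p') :
    ∃ s ∈ G.L m, ∃ p ∈ G.L m, C m s p ∧ Fin0 G φ v l r k0 m {s0.1, p0.1} {s.1, p.1} := by
  obtain ⟨_, ⟨s, a1, p, a2, a3, rfl⟩, a4⟩ := flows h H hm hk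
    (I := fun k S => ∃ s ∈ G.L k, ∃ p ∈ G.L k, C k s p ∧ S = {s.1, p.1})
    ⟨s0, h0, p0, h0', c0, rfl⟩ (by
      rintro k k1 k2 _ ⟨s, s1, p, p1, s2, rfl⟩
      obtain ⟨p', t', s', t1, t2, t3⟩ := st k k1 k2 s s1 p p1 s2
      obtain ⟨m1, m2⟩ := t2.mem (F := FL G) (H.up s1) (H.up p1)
      exact ⟨r2 s' p' t', H.rw2 t1 ⟨_, m2, rfl⟩ t2.2.2 t2.2.1,
        lnk_pair h H.ph (H.lay.la s1) (H.lay.la p1) (t2.1.imp
          (fun o => ⟨by rw [o.1], by rw [o.2]⟩) fun o => ⟨by rw [o.1], by rw [o.2]⟩),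
        s', t1, p', m1, t3, rfl⟩)
  exact ⟨s, a1, p, a2, a3, a4⟩

/-- One flow without condition. -/
theorem flow1' {k0 m : ℕ} (hm : G.η b = m + 1) (hk : k0 ≤ m) {s0 : Vx J} (h0 : s0 ∈ G.L k0) :
    ∃ s ∈ G.L m, (k0 = m → s = s0) ∧ Fin0 G φ v l r k0 m {s0.1} {s.1} :=
  flow1 h H hm hk (C := fun k s => k0 = k → s = s0) h0 (fun _ => rfl) fun k c _ s _ _ =>
    let ⟨z, a, n, _⟩ := H.off (k + 1 : ℕ) (φ s) (φ s)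
    ⟨z, a, n, fun o => by omega⟩

/-- Two flows without condition. -/
theorem flow2' {k0 m : ℕ} (hm : G.η b = m + 1) (hk : k0 ≤ m) {s0 p0 : Vx J} (h0 : s0 ∈ G.L k0)
    (h0' : p0 ∈ G.L k0) : ∃ s ∈ G.L m, ∃ p ∈ G.L m, (k0 = m → s = s0 ∧ p = p0) ∧
      Fin0 G φ v l r k0 m {s0.1, p0.1} {s.1, p.1} :=
  flow2 h H hm hk (C := fun k s p => k0 = k → s = s0 ∧ p = p0) h0 h0' (fun _ => ⟨rfl, rfl⟩)
    fun k c _ s _ p _ _ =>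
      let ⟨z, a, n⟩ := H.pair_any (k + 1 : ℕ) (φ s) (φ p)
      ⟨_, _, z, a, n, fun o => by omega⟩

end

/-! ### Tops by hand -/

theorem top_one {f : Sym2 (Vx J)} (k : SS G (P0 E) pL pR e ⊆ {f})
    (c : e.1 ∈ E.Sk ∨ e.1 ∈ E.Ps) : Top G φ E m0 pL pR e := Or.inr (Or.inl ⟨f, k, c⟩)

theorem top_t2 {f f' : Sym2 (Vx J)} (k : SS G (P0 E) pL pR e ⊆ {f, f'}) (c : e.1 ∈ E.Sk)
    (c' : e.1 ∈ E.Ps) : Top G φ E m0 pL pR e := Or.inr (Or.inr (Or.inl ⟨f, f', k, c, c'⟩))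

theorem top_sp {f f' : Sym2 (Vx J)} (k : SS G (P0 E) pL pR e ⊆ {f, f'}) (sp : Span G e f f')
    (c : e.1 ∈ E.Sk ∨ e.1 ∈ E.Ps) (nw : NW G φ E e) : Top G φ E m0 pL pR e :=
  Top.spe (Or.inr (Or.inr (Or.inl ⟨c, nw, f, f', k, sp⟩)))

theorem top_m1 {f f' : Sym2 (Vx J)} (k : SS G (P0 E) pL pR e ⊆ {f, f'})
    (m : f ∈ PE G.Γ (Bc G e).X) (m' : f' ∈ PE G.Γ (Bc G e).X) (c : e.1 ∈ E.Sk)
    (s : e ∈ St0 G E) : Top G φ E m0 pL pR e :=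
  Top.spe (Or.inr (Or.inr (Or.inr ⟨⟨f, m, f', m', k⟩, Or.inl ⟨c, s⟩⟩)))

theorem top_m2 {f f' : Sym2 (Vx J)} (k : SS G (P0 E) pL pR e ⊆ {f, f'})
    (m : f ∈ PE G.Γ (Bc G e).X) (m' : f' ∈ PE G.Γ (Bc G e).X) (c : e.1 ∈ E.Ps)
    (n : ∀ y ∈ G.L (G.f e), y.1 ∉ E.Sk) : Top G φ E e.1 pL pR e :=
  Top.spe (Or.inr (Or.inr (Or.inr ⟨⟨f, m, f', m', k⟩, Or.inr (Or.inl ⟨c, rfl, n⟩)⟩)))

theorem top_m3 {f f' : Sym2 (Vx J)} (k : SS G (P0 E) pL pR e ⊆ {f, f'})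
    (m : f ∈ PE G.Γ (Bc G e).X) (m' : f' ∈ PE G.Γ (Bc G e).X) (c : e.1 ∈ E.Sk)
    (od : Odd (G.nn (G.f e))) (n : ∀ y ∈ G.L (G.f e), y.1 ∈ E.Sk → y.1 = e.1)
    (vs : G.nx e ∈ Vis G (P0 E)) (nw : NW G φ E e) : Top G φ E m0 pL pR e :=
  Top.spe (Or.inr (Or.inr (Or.inr ⟨⟨f, m, f', m', k⟩, Or.inr (Or.inr ⟨c, od, n, vs, nw⟩)⟩)))

/-- an edge between two pins is static -/
theorem st0_rm (hF : Lay (FL G) (XL G) G.Pr) (k : Agr (FL G) E j (rm (FL G) e x))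
    (he : e ∈ G.L j) : e ∈ St0 G E := by
  obtain ⟨p1, -, p2⟩ := pv_mem hF he
  obtain ⟨q1, -, -⟩ := hF.nx_mem he
  have a := (vis_pin (P := P0 E) (hF.la p1) ((k.pn p1).2 (rm_pn _ e x ▸ Or.inl rfl))).2
  exact Or.inr ⟨p2 ▸ a, (vis_pin (P := P0 E) (hF.la q1) ((k.pn q1).2 (rm_pn _ e x ▸ Or.inr rfl))).1⟩

end Pool.Agent.P.MP_08fd93_co.FA
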