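import Pool.Agent.P.MP_08fd93_co.FL.L3
import Pool.Agent.P.MP_08fd93_co.FZ.E0

/-! Systems of flows from sequences of edges: one flow, two flows with a prescribed pin. -/

set_option autoImplicit false

namespace Pool.Agent.P.MP_08fd93_co.FA

open OV FN FK FL FZ PkPrtP

variable {J : Type} {F : FD J} {X : XD J} {Pr : Set (Vx J)} {φ : Vx J → Vx J} {b : ℤ × ℤ}

/-- Rows with at least three edges; `b` generates the levels. -/
structure LB (F : FD J) (X : XD J) (Pr : Set (Vx J)) (φ : Vx J → Vx J) (b : ℤ × ℤ) : Prop where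
  lay : Lay F X Pr
  ph : FK.PH F Pr φ
  n3 : ∀ j, 3 ≤ F.nn j
  b2 : 2 ≤ F.η b
  bd : ∀ a, F.η b ∣ F.η a

theorem lb_ex (hF : Lay F X Pr) (h : FK.PH F Pr φ) (n3 : ∀ j, 3 ≤ F.nn j)
    (ev : ∀ a, Even (F.η a)) : ∃ b, LB F X Pr φ b := by
  obtain ⟨b, b0, bd⟩ := hF.gen
  obtain ⟨r, hr⟩ := ev b
  exact ⟨b, hF, h, n3, by omega, bd⟩

section

variable (H : LB F X Pr φ b)
include H

theorem LB.lv_l {k : ℕ} {x : Vx J} (hx : x ∈ F.L k) : Lv F (F.η b) k x :=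
  ⟨H.lay.la hx, by rw [H.lay.lf _ _ hx, sub_self]; exact dvd_zero _⟩

theorem LB.lv_orb {k : ℕ} {x y : Vx J} (h : Lv F (F.η b) k x) (e : y.1 = x.1) :
    Lv F (F.η b) k y := by
  rw [FK.eq_tr e.symm]
  refine ⟨(H.lay.la_tr _ _).2 h.1, ?_⟩
  rw [H.lay.per, add_sub_right_comm]
  exact dvd_add h.2 (H.bd _)

theorem LB.lv_phi {k : ℕ} {x : Vx J} (h : Lv F (F.η b) k x) (l : (k : ℤ) < F.η b) :
    Lv F (F.η b) (nk (F.η b) k) (φ x) := by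
  refine ⟨H.ph.la H.lay h.1, ?_⟩
  rw [H.ph.lev H.lay h.1]
  unfold nk
  split_ifs with c
  · push_cast
    rw [add_sub_add_right_eq_sub]
    exact h.2
  · have := dvd_add h.2 (dvd_refl (F.η b))
    rwa [show F.f x - k + F.η b = F.f x + 1 - (0 : ℕ) by push_cast; omega] at this

/-- one orbit has one level -/
theorem LB.lv_eq {k k' : ℕ} {x y : Vx J} (h : Lv F (F.η b) k x) (h' : Lv F (F.η b) k' y)
    (e : x.1 = y.1) (l : (k : ℤ) < F.η b) (l' : (k' : ℤ) < F.η b) : k = k' :=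
  lv_uni h (H.lv_orb h' e) rfl l l'

theorem LB.lv_ex {k : ℕ} {x : Vx J} (h : Lv F (F.η b) k x) {j : ℤ} (d : F.η b ∣ j - k) :
    ∃ y ∈ F.L j, y.1 = x.1 := by
  obtain ⟨m, c, e⟩ := h
  obtain ⟨c', e'⟩ := d
  refine ⟨tr ((c' - c) • b) x, ?_, rfl⟩
  have := (H.lay.ltr ((c' - c) • b) _ x).2 m
  rwa [map_zsmul, smul_eq_mul, show F.f x + (c' - c) * F.η b = j by
    linear_combination e - e'] at this

theorem LB.lv_of (j : ℤ) : ∃ k : ℕ, (k : ℤ) < F.η b ∧ F.η b ∣ j - k := by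
  have b2 := H.b2
  obtain ⟨k, hk⟩ := Int.eq_ofNat_of_zero_le (Int.emod_nonneg j (show F.η b ≠ 0 by omega))
  refine ⟨k, hk ▸ Int.emod_lt_of_pos j (by omega), j / F.η b, ?_⟩
  have e2 := Int.emod_add_mul_ediv j (F.η b)
  rw [hk] at e2
  linear_combination -e2

theorem LB.up {k : ℕ} {x : Vx J} (hx : x ∈ F.L k) : φ x ∈ F.L (k + 1 : ℕ) := by
  have := H.ph.mem (H.lay.la hx)
  rwa [H.lay.lf _ _ hx] at this

/-- the last row of a period -/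
theorem LB.last {m : ℕ} (hm : F.η b = m + 2) {x : Vx J} (hx : x ∈ F.L (-1)) :
    tr b x ∈ F.L (m + 1 : ℕ) := by
  have := (H.lay.ltr b _ x).2 hx
  rwa [show -1 + F.η b = (m + 1 : ℕ) by push_cast; omega] at this

theorem LB.last' {m : ℕ} (hm : F.η b = m + 2) {x : Vx J} (hx : x ∈ F.L (m + 1 : ℕ)) :
    tr (-b) x ∈ F.L (-1) := by
  have := (H.lay.ltr (-b) _ x).2 hx
  rwa [map_neg, show ((m + 1 : ℕ) : ℤ) + -F.η b = -1 by push_cast; omega] at this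

/-- an edge of the row outside two orbits -/
theorem LB.off (j : ℤ) (x y : Vx J) : ∃ z ∈ F.L j, z.1 ≠ x.1 ∧ z.1 ≠ y.1 := by
  have a := H.n3 j
  have n01 := l_ne H.lay j (i := 0) (i' := 1) (by omega) (by omega)
  have n02 := l_ne H.lay j (i := 0) (i' := 2) (by omega) (by omega)
  have n12 := l_ne H.lay j (i := 1) (i' := 2) (by omega) (by omega)
  by_contra c
  simp only [not_exists, not_and, not_not] at c
  have c0 := c _ (H.lay.l_mem j 0)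
  have c1 := c _ (H.lay.l_mem j 1)
  have c2 := c _ (H.lay.l_mem j 2)
  by_cases a0 : (F.l j 0).1 = x.1
  · exact n12 ((c1 fun e => n01 (a0.trans e.symm)).trans (c2 fun e => n02 (a0.trans e.symm)).symm)
  · exact n12 ((not_not.1 fun e => n01 ((c0 a0).trans (c1 e).symm)).trans
      (not_not.1 fun e => n02 ((c0 a0).trans (c2 e).symm)).symm)

/-- between two edges of one orbit lies an edge of every other orbit of the row -/
theorem LB.btw {j : ℤ} {s s' g : Vx J} (hs : s ∈ F.L j) (hs' : s' ∈ F.L j) (hg : g ∈ F.L j)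
    (e : s.1 = s'.1) (n : g.1 ≠ s.1) (l : F.ρ s < F.ρ s') :
    ∃ y ∈ F.L j, y.1 = g.1 ∧ F.ρ s < F.ρ y ∧ F.ρ y < F.ρ s' := by
  obtain ⟨k, -, e1⟩ := same_cls H.lay hs hs' e
  obtain ⟨t, t1, t2⟩ := window H.lay hg (F.ρ s)
  have m1 := (H.lay.w_mem t hg).1
  have n2 := H.lay.n2 j
  refine ⟨_, m1, rfl, lt_of_le_of_ne t1 fun q => n ?_, ?_⟩
  · rw [H.lay.inj hs m1 q]
    rfl
  · rcases le_or_gt k 0 with c | c <;> nlinarith

end

/-- The orbits of the first `q` terms. -/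
def OJ (q : ℤ) (g : ℕ → Vx J) : Set J := {i | ∃ k : ℕ, (k : ℤ) < q ∧ i = (g k).1}

/-- The orbits of the neutral pins. -/
def PJ (q : ℤ) (s p : ℕ → Vx J) : Set J :=
  {i | ∃ k : ℕ, (k : ℤ) < q ∧ i = (p k).1 ∧ (p k).1 ≠ (s k).1}

/-- Sources `s`, neutral pins `p` (none if `p k` lies in the orbit of `s k`) and sinks `t` on the
rows of one period; the pins in `A` are free. -/
structure EQ (F : FD J) (φ : Vx J → Vx J) (q : ℤ) (A : Set J) (s p t : ℕ → Vx J) : Prop where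
  ls : ∀ k : ℕ, (k : ℤ) < q → Lv F q k (s k)
  lp : ∀ k : ℕ, (k : ℤ) < q → Lv F q k (p k)
  lt : ∀ k : ℕ, (k : ℤ) < q → Lv F q k (t k)
  dis : ∀ k : ℕ, (k : ℤ) < q → (s k).1 ≠ (t k).1
  top : ∀ k : ℕ, (k : ℤ) < q → ∀ g, g = s k ∨ g = p k → g.1 ∈ A ∨ (φ g).1 = (t (nk q k)).1 ∨
    ((φ g).1 = (p (nk q k)).1 ∧ (p (nk q k)).1 ≠ (s (nk q k)).1)
  fib : ∀ k : ℕ, (k : ℤ) < q → (φ (s k)).1 = (φ (p k)).1 → (s k).1 = (p k).1 ∨ (s k).1 ∈ A ∨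
    (p k).1 ∈ A ∨ ((φ (s k)).1 = (t (nk q k)).1 ∧ (t (nk q k)).1 = (p (nk q k)).1)
  p0 : (p 0).1 = (s 0).1

theorem pn_s {q : ℤ} {A : Set J} {s p t : ℕ → Vx J} {k : ℕ} (l : (k : ℤ) < q) :
    (s k).1 ∈ EJ.Pn ⟨OJ q s, OJ q t, PJ q s p, A⟩ := Or.inl ⟨k, l, rfl⟩

theorem pn_p {q : ℤ} {A : Set J} {s p t : ℕ → Vx J} {k : ℕ} (l : (k : ℤ) < q) :
    (p k).1 ∈ EJ.Pn ⟨OJ q s, OJ q t, PJ q s p, A⟩ := by
  by_cases c : (p k).1 = (s k).1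
  exacts [Or.inl ⟨k, l, c⟩, Or.inr ⟨k, l, rfl, c⟩]

theorem EQ.sys (H : LB F X Pr φ b) {A : Set J} {s p t : ℕ → Vx J} (Q : EQ F φ (F.η b) A s p t)
    {τ : Vx J} {fz : Prop} (eps : (fz ∧ (τ.1 = (s 1).1 ∨ τ.1 = (p 1).1) ∧ (φ (s 0)).1 ≠ τ.1) ∨
      ((τ.1 = (t 1).1 ∨ (τ.1 = (p 1).1 ∧ (p 1).1 ≠ (s 1).1)) ∧
        ((φ (s 0)).1 = τ.1 → τ.1 = (t 1).1 ∧ (t 1).1 = (p 1).1))) :
    ES F φ ⟨OJ (F.η b) s, OJ (F.η b) t, PJ (F.η b) s p, A⟩ (s 0) τ fz := by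
  have b2 := H.b2
  have hF := H.lay
  have l0 : ((0 : ℕ) : ℤ) < F.η b := by omega
  have l1 : ((1 : ℕ) : ℤ) < F.η b := by omega
  have rep : ∀ g : Vx J, g.1 ∈ EJ.Pn ⟨OJ (F.η b) s, OJ (F.η b) t, PJ (F.η b) s p, A⟩ → ∃ k : ℕ,
      (k : ℤ) < F.η b ∧ Lv F (F.η b) k g ∧ ∃ x, (x = s k ∨ x = p k) ∧ g.1 = x.1 := by
    rintro g (⟨k, l, e⟩ | ⟨k, l, e, -⟩)
    exacts [⟨k, l, H.lv_orb (Q.ls k l) e, _, Or.inl rfl, e⟩,
      ⟨k, l, H.lv_orb (Q.lp k l) e, _, Or.inr rfl, e⟩]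
  have same : ∀ {j : ℤ} {x y : Vx J} {k k' : ℕ}, x ∈ F.L j → y ∈ F.L j → Lv F (F.η b) k x →
      Lv F (F.η b) k' y → (k : ℤ) < F.η b → (k' : ℤ) < F.η b → k = k' :=
    fun hx hy a a' l l' => lv_uni a a' ((hF.lf _ _ hx).trans (hF.lf _ _ hy).symm) l l'
  have ps : ∀ k : ℕ, (k : ℤ) < F.η b → (t k).1 = (p k).1 → (t k).1 ∈ PJ (F.η b) s p :=
    fun k l e => ⟨k, l, e, fun o => Q.dis k l (o.symm.trans e.symm)⟩
  refine ⟨?_, fun j => ?_, ?_, ?_, fun g _ hg n => ?_, ?_, ⟨0, l0, rfl⟩, fun g hg m => ?_, ?_⟩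
  · rintro i ⟨k, l, rfl⟩
    constructor
    · rintro ⟨k', l', e⟩
      obtain rfl := H.lv_eq (Q.ls k l) (Q.lt k' l') e l l'
      exact Q.dis k l e
    · rintro ⟨k', l', e, n⟩
      obtain rfl := H.lv_eq (Q.ls k l) (Q.lp k' l') e l l'
      exact n e.symm
  · obtain ⟨k, l, d⟩ := H.lv_of j
    obtain ⟨y, hy, e⟩ := H.lv_ex (Q.lt k l) d
    exact ⟨y, hy, k, l, e⟩
  · rintro j x hx y hy ⟨k, l, e⟩ ⟨k', l', e'⟩ lt
    have a := H.lv_orb (Q.lt k l) e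
    obtain rfl := same hx hy a (H.lv_orb (Q.lt k' l') e') l l'
    obtain ⟨g, hg, e1⟩ := H.lv_ex (Q.ls k l) (j := j) (hF.lf _ _ hx ▸ a.2)
    obtain ⟨z, hz, e2, k1⟩ := H.btw hx hy hg (e.trans e'.symm)
      (fun o => Q.dis k l (e1.symm.trans (o.trans e))) lt
    exact ⟨z, hz, ⟨k, l, e2.trans e1⟩, k1⟩
  · intro j x hx y hy z hz m1 m2 m3
    obtain ⟨k, l, a1, x', c1, e1⟩ := rep x m1
    obtain ⟨k2, l2, a2, y', c2, e2⟩ := rep y m2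
    obtain ⟨k3, l3, a3, z', c3, e3⟩ := rep z m3
    obtain rfl := same hx hy a1 a2 l l2
    obtain rfl := same hx hz a1 a3 l l3
    rw [e1, e2, e3]
    rcases c1 with rfl | rfl <;> rcases c2 with rfl | rfl <;> rcases c3 with rfl | rfl <;> simp
  · obtain ⟨k, l, a, x, c, e⟩ := rep g hg
    have l' := nk_lt (show 0 < F.η b by omega) k
    have e' : (φ g).1 = (φ x).1 := H.ph.fst a.1 e
    rcases Q.top k l x c with o | o | o
    exacts [absurd (e ▸ o) n, Or.inl ⟨_, l', e'.trans o⟩, Or.inr ⟨_, l', e'.trans o.1, o.2⟩]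
  · intro j x hx y hy m1 m2 n1 n2 ne e
    obtain ⟨k, l, a1, x', c1, e1⟩ := rep x m1
    obtain ⟨k2, l2, a2, y', c2, e2⟩ := rep y m2
    obtain rfl := same hx hy a1 a2 l l2
    have l' := nk_lt (show 0 < F.η b by omega) k
    have f1 := H.ph.fst a1.1 e1
    have f2 := H.ph.fst a2.1 e2
    rw [e1] at n1
    rw [e2] at n2
    rw [e1, e2] at ne
    have key : (φ (s k)).1 = (φ (p k)).1 ∧ (s k).1 ≠ (p k).1 ∧ (s k).1 ∉ A ∧ (p k).1 ∉ A ∧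
        (φ x).1 = (φ (s k)).1 := by
      have e3 := f1.symm.trans (e.trans f2)
      rcases c1 with rfl | rfl <;> rcases c2 with rfl | rfl
      exacts [absurd rfl ne, ⟨e3, ne, n1, n2, f1⟩, ⟨e3.symm, ne.symm, n2, n1, f1.trans e3⟩,
        absurd rfl ne]
    obtain ⟨o1, o2⟩ := (((Q.fib k l key.1).resolve_left key.2.1).resolve_left
      key.2.2.1).resolve_left key.2.2.2.1
    rw [key.2.2.2.2, o1]
    exact ⟨⟨_, l', rfl⟩, ps _ l' o2⟩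
  · obtain ⟨k, l, a, x, c, e⟩ := rep g m
    obtain rfl := lv_uni a (H.lv_l (k := 0) hg) rfl l l0
    rcases c with rfl | rfl
    exacts [e, e.trans Q.p0]
  · refine eps.imp (fun o => ⟨o.1, ?_, o.2.2⟩) fun o => ⟨o.1.imp (fun e => ⟨1, l1, e⟩)
      fun e => ⟨1, l1, e.1, e.2⟩, fun e => ?_⟩
    · rcases o.2.1 with e | e <;> rw [e]
      exacts [pn_s l1, pn_p l1]
    · obtain ⟨e1, e2⟩ := o.2 e
      rw [e1]
      exact ⟨⟨1, l1, rfl⟩, ps 1 l1 e2⟩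

section

variable (H : LB F X Pr φ b)
include H

/-- One flow: the sources `g0` of the row zero and `τ` of the row one are given. -/
theorem LB.planA (A : Set J) {g0 τ : Vx J} (h0 : g0 ∈ F.L 0) (h1 : τ ∈ F.L 1)
    (ne : (φ g0).1 ≠ τ.1) (q2 : F.η b = 2 → (φ τ).1 ≠ g0.1)
    (q4 : F.η b ≠ 2 → ∃ y ∈ F.L (-1), ∃ y' ∈ F.L (-1), y.1 ≠ y'.1 ∧ (φ y).1 ≠ g0.1 ∧
      (φ y').1 ≠ g0.1) : ∃ E : EJ J, E.Fr = A ∧ ES F φ E g0 τ True ∧ τ.1 ∈ E.Pn := by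
  have b2 := H.b2
  obtain ⟨m, hm⟩ : ∃ m : ℕ, F.η b = m + 2 := ⟨(F.η b - 2).toNat, by omega⟩
  obtain ⟨g, e0, hg⟩ := seq_ex (fun k x => x ∈ F.L (k + 1 : ℕ) ∧ (k = m → (φ x).1 ≠ g0.1))
    (fun x y => y.1 ≠ (φ x).1) τ ⟨h1, fun e => q2 (by omega)⟩ fun k x _ => by
      by_cases c : k + 1 = m
      · obtain ⟨y, hy, y', hy', n, n1, n2⟩ := q4 (by omega)
        have a := H.last hm hy
        have a' := H.last hm hy'
        rw [← c] at a a'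
        by_cases e : y.1 = (φ x).1
        · exact ⟨_, ⟨a', fun _ => by rwa [H.ph.eqv _ _ (H.lay.la hy')]⟩,
            fun o => n (e.trans o.symm)⟩
        · exact ⟨_, ⟨a, fun _ => by rwa [H.ph.eqv _ _ (H.lay.la hy)]⟩, e⟩
      · obtain ⟨z, h1, h2, -⟩ := H.off (k + 1 + 1 : ℕ) (φ x) (φ x)
        exact ⟨z, ⟨h1, fun e => absurd e c⟩, h2⟩
  subst e0
  have lc : Lv F (F.η b) 0 (φ (g m)) := by
    have := H.lv_phi (H.lv_l (hg m).1.1) (by push_cast; omega)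
    rwa [nk_b (by push_cast; omega)] at this
  have Q : EQ F φ (F.η b) A (fun k => Nat.casesOn k g0 g) (fun k => Nat.casesOn k g0 g)
      (fun k => Nat.casesOn k (φ (g m)) fun k => Nat.casesOn k (φ g0) fun k => φ (g k)) := by
    refine ⟨?_, ?_, ?_, ?_, ?_, fun _ _ _ => Or.inl rfl, rfl⟩
    · rintro (_ | k) -
      exacts [H.lv_l (k := 0) h0, H.lv_l (hg k).1.1]
    · rintro (_ | k) -
      exacts [H.lv_l (k := 0) h0, H.lv_l (hg k).1.1]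
    · rintro (_ | _ | k) -
      exacts [lc, H.lv_l (H.up (k := 0) h0), H.lv_l (H.up (hg k).1.1)]
    · rintro (_ | _ | k) -
      exacts [((hg m).1.2 rfl).symm, ne.symm, (hg k).2]
    · rintro (_ | k) l y hy
      · rw [nk_a (by omega), hy.elim id id]
        exact Or.inr (Or.inl rfl)
      · obtain rfl : y = g k := hy.elim id id
        by_cases e : ((k + 1 : ℕ) : ℤ) + 1 < F.η b
        · rw [nk_a e]
          exact Or.inr (Or.inl rfl)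
        · rw [nk_b e]
          obtain rfl : k = m := by omega
          exact Or.inr (Or.inl rfl)
  exact ⟨_, rfl, Q.sys H (Or.inl ⟨trivial, Or.inl rfl, ne⟩),
    pn_s (s := fun k => Nat.casesOn k g0 g) (k := 1) (by omega)⟩

/-- two centres and a prescribed pin -/
theorem LB.pick {j : ℤ} (d d' : Vx J) {f r : Vx J} (hf : f ∈ F.L j) (hr : r ∈ F.L j) :
    ∃ p t, ∃ s ∈ F.L j, ((p = d ∧ t = d') ∨ (p = d' ∧ t = d)) ∧ s.1 ≠ p.1 ∧ s.1 ≠ t.1 ∧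
      (s.1 = f.1 ∨ p.1 = f.1) ∧
      (r.1 ≠ d.1 ∨ d'.1 = d.1 → d.1 = p.1 ∨ r.1 = s.1 ∨ r.1 = p.1) := by
  obtain ⟨z, hz, z1, z2⟩ := H.off j d d'
  by_cases c : f.1 = d.1
  · exact ⟨d, d', z, hz, Or.inl ⟨rfl, rfl⟩, z1, z2, Or.inr c.symm, fun _ => Or.inl rfl⟩
  by_cases c' : f.1 = d'.1
  swap
  · exact ⟨d, d', f, hf, Or.inl ⟨rfl, rfl⟩, c, c', Or.inl rfl, fun _ => Or.inl rfl⟩
  by_cases e : r.1 = d'.1 ∨ r.1 = d.1
  · refine ⟨d', d, z, hz, Or.inr ⟨rfl, rfl⟩, z2, z1, Or.inr c'.symm, fun k => ?_⟩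
    rcases e with e | e
    exacts [Or.inr (Or.inr e), Or.inl (k.resolve_left fun n => n e).symm]
  · exact ⟨d', d, r, hr, Or.inr ⟨rfl, rfl⟩, fun o => e (Or.inl o), fun o => e (Or.inr o),
      Or.inr c'.symm, fun _ => Or.inr (Or.inl rfl)⟩

/-- Two flows: the free edge `f` of the last row is pinned, nothing else arrives on `g0`; one of
the edges `τ`, `r` of the row one is pinned. -/
theorem LB.planB {A : Set J} {g0 τ r f : Vx J} (h0 : g0 ∈ F.L 0) (h1 : τ ∈ F.L 1)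
    (hr : r ∈ F.L 1) (ne : r.1 ≠ τ.1 ∨ (φ g0).1 = τ.1) (hf : f ∈ F.L (-1)) (fa : f.1 ∈ A)
    (em : ∀ y ∈ F.L (-1), y.1 ≠ f.1 → (φ y).1 ≠ g0.1) (fz : Prop) :
    ∃ E : EJ J, E.Fr = A ∧ ES F φ E g0 τ fz ∧ (τ.1 ∈ E.Pn ∨ r.1 ∈ E.Pn) := by
  have b2 := H.b2
  have hF := H.lay
  obtain ⟨m, hm⟩ : ∃ m : ℕ, F.η b = m + 2 := ⟨(F.η b - 2).toNat, by omega⟩
  have fm := H.last hm hf
  have step : ∀ (k : ℕ) (d d' r : Vx J), d ∈ F.L (k + 1 : ℕ) → d' ∈ F.L (k + 1 : ℕ) →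
      r ∈ F.L (k + 1 : ℕ) → ∃ x : Vx J × Vx J × Vx J, (x.1 ∈ F.L (k + 1 : ℕ) ∧
        x.2.1 ∈ F.L (k + 1 : ℕ) ∧ x.2.2 ∈ F.L (k + 1 : ℕ) ∧ x.1.1 ≠ x.2.1.1 ∧ x.1.1 ≠ x.2.2.1 ∧
        (k = m → x.1.1 = f.1 ∨ x.2.1.1 = f.1)) ∧
        ((x.2.1 = d ∧ x.2.2 = d') ∨ (x.2.1 = d' ∧ x.2.2 = d)) ∧
        (r.1 ≠ d.1 ∨ d'.1 = d.1 → d.1 = x.2.1.1 ∨ r.1 = x.1.1 ∨ r.1 = x.2.1.1) := by
    intro k d d' r a a' hr
    obtain ⟨f', f1, f2⟩ : ∃ f' ∈ F.L (k + 1 : ℕ), k = m → f'.1 = f.1 := by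
      by_cases c : k = m
      exacts [⟨tr b f, c ▸ fm, fun _ => rfl⟩, ⟨d, a, fun e => absurd e c⟩]
    obtain ⟨p, t, s, hs, o, n1, n2, n3, n4⟩ := H.pick d d' f1 hr
    exact ⟨(s, p, t), ⟨hs, o.elim (fun o => o.1 ▸ a) fun o => o.1 ▸ a',
      o.elim (fun o => o.2 ▸ a') fun o => o.2 ▸ a, n1, n2, fun e => f2 e ▸ n3⟩, o, n4⟩
  obtain ⟨x0, i0, o0, v0⟩ := step 0 τ (φ g0) r h1 (H.up (k := 0) h0) hr
  obtain ⟨g, e0, hg⟩ := seq_ex (α := Vx J × Vx J × Vx J)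
    (fun k x => x.1 ∈ F.L (k + 1 : ℕ) ∧ x.2.1 ∈ F.L (k + 1 : ℕ) ∧ x.2.2 ∈ F.L (k + 1 : ℕ) ∧
      x.1.1 ≠ x.2.1.1 ∧ x.1.1 ≠ x.2.2.1 ∧ (k = m → x.1.1 = f.1 ∨ x.2.1.1 = f.1))
    (fun x y => (y.2.1 = φ x.2.1 ∧ y.2.2 = φ x.1) ∨ (y.2.1 = φ x.1 ∧ y.2.2 = φ x.2.1))
    x0 i0 fun k x hx => by
      obtain ⟨y, a1, a2, -⟩ := step (k + 1) _ _ _ (H.up hx.2.1) (H.up hx.1) (H.up hx.1)
      exact ⟨y, a1, a2⟩
  subst e0
  obtain ⟨⟨s1, s2, -, s3, -, s4⟩, -⟩ := hg m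
  have lc : ∀ x ∈ F.L (m + 1 : ℕ), x.1 ≠ f.1 → Lv F (F.η b) 0 (φ x) ∧ g0.1 ≠ (φ x).1 := by
    intro x hx n
    have := H.lv_phi (H.lv_l hx) (by push_cast; omega)
    rw [nk_b (by push_cast; omega)] at this
    have k := em _ (H.last' hm hx) n
    rw [H.ph.eqv _ _ (hF.la hx)] at k
    exact ⟨this, fun o => k o.symm⟩
  obtain ⟨c, c1, c2, c3, c4⟩ : ∃ c, Lv F (F.η b) 0 c ∧ g0.1 ≠ c.1 ∧
      (∀ y, y = (g m).1 ∨ y = (g m).2.1 → y.1 ∈ A ∨ (φ y).1 = c.1) ∧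
      ((g m).1.1 ∈ A ∨ (g m).2.1.1 ∈ A) := by
    rcases s4 rfl with e | e
    · obtain ⟨a1, a2⟩ := lc _ s2 fun o => s3 (e.trans o.symm)
      refine ⟨_, a1, a2, ?_, Or.inl (e ▸ fa)⟩
      rintro y (rfl | rfl)
      exacts [Or.inl (e ▸ fa), Or.inr rfl]
    · obtain ⟨a1, a2⟩ := lc _ s1 fun o => s3 (o.trans e.symm)
      refine ⟨_, a1, a2, ?_, Or.inr (e ▸ fa)⟩
      rintro y (rfl | rfl)
      exacts [Or.inr rfl, Or.inl (e ▸ fa)]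
  have n0 := i0.2.2.2.1.symm
  have Q : EQ F φ (F.η b) A (fun k => Nat.casesOn k g0 fun k => (g k).1)
      (fun k => Nat.casesOn k g0 fun k => (g k).2.1)
      (fun k => Nat.casesOn k c fun k => (g k).2.2) := by
    refine ⟨?_, ?_, ?_, ?_, ?_, ?_, rfl⟩
    · rintro (_ | k) -
      exacts [H.lv_l (k := 0) h0, H.lv_l (hg k).1.1]
    · rintro (_ | k) -
      exacts [H.lv_l (k := 0) h0, H.lv_l (hg k).1.2.1]
    · rintro (_ | k) -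
      exacts [c1, H.lv_l (hg k).1.2.2.1]
    · rintro (_ | k) -
      exacts [c2, (hg k).1.2.2.2.2.1]
    · rintro (_ | k) l y hy
      · rw [nk_a (by omega), hy.elim id id]
        rcases o0 with o | o
        exacts [Or.inr (Or.inl (congrArg Prod.fst o.2.symm)),
          Or.inr (Or.inr ⟨congrArg Prod.fst o.1.symm, n0⟩)]
      · by_cases e : ((k + 1 : ℕ) : ℤ) + 1 < F.η b
        · rw [nk_a e]
          have n := (hg (k + 1)).1.2.2.2.1.symm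
          rcases (hg k).2 with o | o <;> rcases hy with rfl | rfl
          exacts [Or.inr (Or.inl (congrArg Prod.fst o.2.symm)),
            Or.inr (Or.inr ⟨congrArg Prod.fst o.1.symm, n⟩),
            Or.inr (Or.inr ⟨congrArg Prod.fst o.1.symm, n⟩),
            Or.inr (Or.inl (congrArg Prod.fst o.2.symm))]
        · rw [nk_b e]
          obtain rfl : k = m := by omega
          exact (c3 y hy).imp_right Or.inl
    · rintro (_ | k) l e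
      · exact Or.inl rfl
      by_cases e' : ((k + 1 : ℕ) : ℤ) + 1 < F.η b
      · rw [nk_a e']
        refine Or.inr (Or.inr (Or.inr ?_))
        rcases (hg k).2 with o | o
        exacts [⟨congrArg Prod.fst o.2.symm, (congrArg Prod.fst o.2).trans
          (e.trans (congrArg Prod.fst o.1.symm))⟩, ⟨e.trans (congrArg Prod.fst o.2.symm),
          (congrArg Prod.fst o.2).trans (e.symm.trans (congrArg Prod.fst o.1.symm))⟩]
      · obtain rfl : k = m := by omega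
        exact Or.inr (c4.imp_right Or.inl)
  have l1 : ((1 : ℕ) : ℤ) < F.η b := by omega
  have ms := pn_s (A := A) (s := fun k => Nat.casesOn k g0 fun k => (g k).1)
    (p := fun k => Nat.casesOn k g0 fun k => (g k).2.1)
    (t := fun k => Nat.casesOn k c fun k => (g k).2.2) l1
  have mp := pn_p (A := A) (s := fun k => Nat.casesOn k g0 fun k => (g k).1)
    (p := fun k => Nat.casesOn k g0 fun k => (g k).2.1)
    (t := fun k => Nat.casesOn k c fun k => (g k).2.2) l1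
  refine ⟨_, rfl, Q.sys H (Or.inr ?_), ?_⟩
  · rcases o0 with o | o
    · exact ⟨Or.inr ⟨congrArg Prod.fst o.1.symm, n0⟩, fun e =>
        ⟨e.symm.trans (congrArg Prod.fst o.2.symm),
          (congrArg Prod.fst o.2).trans (e.trans (congrArg Prod.fst o.1.symm))⟩⟩
    · exact ⟨Or.inl (congrArg Prod.fst o.2.symm), fun e => ⟨congrArg Prod.fst o.2.symm,
        (congrArg Prod.fst o.2).trans (e.symm.trans (congrArg Prod.fst o.1.symm))⟩⟩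
  · rcases v0 ne with e | e | e
    exacts [Or.inl (e ▸ mp), Or.inr (e ▸ ms), Or.inr (e ▸ mp)]

end

end Pool.Agent.P.MP_08fd93_co.FA
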