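import Pool.Agent.P.MP_08fd93_co.FA.F1
import Pool.Agent.P.MP_08fd93_co.FN.N11

/-! The two side edges of a stem and the arrival of the edge at its right foot. -/

set_option autoImplicit false

namespace Pool.Agent.P.MP_08fd93_co.FA

open OV FN FK FZ PkPrtP FB FE

variable {J : Type} {G : VD J} {φ : Vx J → Vx J} {l r v : Vx J} {P : Set (Vx J)}

/-- the levels of the side edges -/
theorem side_lev (h : SV G) (il : IsL G l) (ir : IsR G r) (el : G.an (G.nx l) = v)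
    (er : G.an r = v) : l ∈ G.L (G.f v) ∧ r ∈ G.L (G.f v) ∧ G.ρ l < G.ρ r := by
  have a := h.isL_le il ir.1 (er.trans el.symm)
  have e : G.f v = G.f l := er ▸ (h.vf.an_v a.1 (h.pr _) ir.2.1).2
  exact ⟨e ▸ il.1, e ▸ a.1, a.2⟩

/-- the edge that begins at the right foot arrives between the right side edge and the next
translate of the left side edge -/
theorem side_phi (h : SV G) (hφ : FK.PH (FL G) G.Pr φ) (il : IsL G l) (ir : IsR G r)
    (el : G.an (G.nx l) = v) (er : G.an r = v) :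
    φ (G.xr v) ∈ G.L (G.f v) ∧ G.ρ r ≤ G.ρ (φ (G.xr v)) ∧
      G.ρ (φ (G.xr v)) ≤ G.ρ l + G.nn (G.f v) := by
  have H := h.lay
  have kv : v ∈ G.K := er ▸ ir.2.1
  obtain ⟨l1, r1, -⟩ := side_lev h il ir el er
  obtain ⟨⟨x1, -⟩, ⟨y1, y2⟩, x3⟩ := h.foot kv
  have fl : G.f l = G.f v := H.lf _ _ l1
  have fr : G.f r = G.f v := H.lf _ _ r1
  have m := hφ.mem (H.la y1)
  rw [show (FL G).f (G.xr v) = G.f v - 1 from H.lf _ _ y1, sub_add_cancel] at m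
  refine ⟨m, h.isR_phi hφ ir (fr ▸ y1) (er ▸ (x3 _ y1 y2).1), ?_⟩
  obtain ⟨w1, w2⟩ := H.w_mem 1 l1
  obtain ⟨-, z2⟩ := H.w_mem 1 x1
  have fw : G.f (tr ((1 : ℤ) • G.w) l) = G.f v := H.lf _ _ w1
  have s := h.sh v kv
  have n2 : 2 ≤ G.nn (G.f v - 1) := H.n2 _
  have := h.isL_phi hφ (h.isL_tr ((1 : ℤ) • G.w) il) (g := G.xr v) (fw ▸ y1) (by
    rw [show G.nx (tr ((1 : ℤ) • G.w) l) = tr ((1 : ℤ) • G.w) (G.nx l) from H.nx_tr _ l1,
      h.vf.atr, el, (h.vf.xtr _ _).1]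
    have z2 : G.ρ (tr ((1 : ℤ) • G.w) (G.xl v)) = G.ρ (G.xl v) + 1 * G.nn (G.f v - 1) := z2
    omega)
  have w2 : G.ρ (tr ((1 : ℤ) • G.w) l) = G.ρ l + 1 * G.nn (G.f v) := w2
  omega

/-- the hypothesis `ne` of the second plan -/
theorem side_ne (h : SV G) (hφ : FK.PH (FL G) G.Pr φ) (il : IsL G l) (ir : IsR G r)
    (el : G.an (G.nx l) = v) (er : G.an r = v) : r.1 ≠ l.1 ∨ (φ (G.xr v)).1 = l.1 := by
  have H := h.lay
  obtain ⟨l1, r1, lt⟩ := side_lev h il ir el er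
  obtain ⟨m, a, b⟩ := side_phi h hφ il ir el er
  refine or_iff_not_imp_left.2 fun e => ?_
  have e := not_not.1 e
  obtain ⟨k, -, q⟩ := same_cls H l1 r1 e.symm
  have q : G.ρ r = G.ρ l + k * G.nn (G.f v) := q
  have n2 : 2 ≤ G.nn (G.f v) := H.n2 _
  have : G.ρ (φ (G.xr v)) = G.ρ r := by
    rcases le_or_gt k 0 with c | c <;> nlinarith
  rw [H.inj m r1 this, e]

/-- a pinned side edge has a child of the stem as an end -/
theorem side_kid (h : SV G) (il : IsL G l) (ir : IsR G r) (el : G.an (G.nx l) = v)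
    (er : G.an r = v) (p : l ∈ P ∨ r ∈ P) :
    ∃ t ∈ G.LA, G.an t = v ∧ ∃ g ∈ P, g ∈ G.LA ∧ (t = g ∨ t = G.nx g) :=
  p.elim (fun p => ⟨_, nx_la h.lay il.1, el, l, p, il.1, Or.inr rfl⟩)
    fun p => ⟨r, ir.1, er, r, p, ir.1, Or.inl rfl⟩

end Pool.Agent.P.MP_08fd93_co.FA
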