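import Pool.Agent.P.MP_08fd93_co.FA.Sp2
import Pool.Agent.P.MP_08fd93_co.FY.P1
import Pool.Agent.P.MP_08fd93_co.FW.T6
import Pool.Agent.P.MP_08fd93_co.FH.L2
import Pool.Agent.P.MP_08fd93_co.FB.W3
import Pool.Agent.P.MP_08fd93_co.FE.LZ7
import Pool.Agent.P.MP_08fd93_co.FR.St2
import Pool.Agent.P.MP_08fd93_co.FG.Tp
import Pool.Agent.P.MP_08fd93_co.FN.D2
import Pool.Agent.P.MP_08fd93_co.FD.A2

/-! Depth two, and the periodic statement. -/

set_option autoImplicit false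

namespace Pool.Agent.P.MP_08fd93_co.FA

theorem pit : FZ.S_Pit :=
  FY.pit_of (FD.caseA FP.leaf_g0 FP.leaf_g1 FP.leaf_g2 (FY.lz_of FE.long_z)) FR.leaf_vv
    (FG.tp FR.cs FN.cx) FE.long_z fun _ _ _ _ _ _ _ _ _ hN r H all =>
      FW.c2w FP.leaf_g1 FE.long_z FP.leaf_h1 FP.leaf_h2 FP.leaf_ho FH.l1 FH.l3 r hN H all

theorem core : FZ.S_Core' := core_of_pit pit

end Pool.Agent.P.MP_08fd93_co.FA
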