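import Pool.Agent.P.MP_08fd93_co.FZ.Asm
import Pool.Agent.P.MP_08fd93_co.FK.K5
import Pool.Agent.P.MP_08fd93_co.FN.N12
import Pool.Agent.P.MP_08fd93_co.FR.Ear0

/-! Depth one, the root is a spike: the cases. -/

set_option autoImplicit false

namespace Pool.Agent.P.MP_08fd93_co.FA

open OV FZ FR FN FK

variable {J : Type}

/-- A spike `v` with its raised frame. -/
structure SD1 (Γ : SimpleGraph (Vx J)) (η : ℤ × ℤ →+ ℤ) (f : Vx J → ℤ) (v : Vx J)
    (an : Vx J → Vx J) (G : VD J) : Prop where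
  hJ : Nonempty J
  hG : Good Γ
  hN : NJ Γ Set.univ
  ev : ∀ a, Even (η a)
  R : RH Γ η v f
  E : Spike Γ η v
  A : An1 Γ f v an
  H : Fr1 Γ η f v an G

/-- All vertices of the row one are children of roots. -/
def Funnel (G : VD J) : Prop := ∀ x ∈ G.L 1, G.an x ∈ G.K

/-- `l` names the edge of the row one that ends in the first child of `v`. -/
def EdL (G : VD J) (v l : Vx J) : Prop := l ∈ G.L 1 ∧ G.an (G.nx l) = v ∧ G.an l ≠ v

/-- `r` names the edge of the row one that begins in the last child of `v`. -/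
def EdR (G : VD J) (v r : Vx J) : Prop := r ∈ G.L 1 ∧ G.an r = v ∧ G.an (G.nx r) ≠ v

/-- Two upper neighbours of `v` see the whole row zero between them. -/
def Cover (G : VD J) (v : Vx J) : Prop := ∃ z z' x, G.Γ.Adj z v ∧ G.Γ.Adj z' v ∧ z ∉ G.L 0 ∧
  z' ∉ G.L 0 ∧ x ∈ G.L 0 ∧ G.ρ (G.xr v) < G.ρ x ∧ G.ρ x < G.ρ (G.xr v) + G.nn 0 ∧ G.Γ.Adj z x ∧
    G.Γ.Adj z' (tr (-G.w) x)

/-- The statement for all spikes whose frame has the property `P`. -/
def SpP (P : ∀ (J : Type), VD J → Vx J → Prop) : Prop :=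
  ∀ (J : Type) [Fintype J] (Γ : SimpleGraph (Vx J)) (η : ℤ × ℤ →+ ℤ) (f : Vx J → ℤ) (v : Vx J)
    (an : Vx J → Vx J) (G : VD J), SD1 Γ η f v an G → P J G v → ∃ c, Col1 Γ ∅ c

/-- No hub on the right, the left side is broad. -/
def S_S1 : Prop := SpP fun _ G v => HR G ∧ ∃ l, EdL G v l ∧ G.an l ≠ G.xl v

/-- No hub, both sides are narrow. -/
def S_S2 : Prop := SpP fun _ G v => HR G ∧ HL G ∧ ∃ l r, EdL G v l ∧ EdR G v r ∧
  G.an l = G.xl v ∧ G.an (G.nx r) = G.xr v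

/-- One side has no hub. -/
def S_Free : Prop := SpP fun _ G _ => HR G ∨ HL G

/-- The funnel. -/
def S_Fun : Prop := SpP fun _ G _ => Funnel G

/-- Two hubs see the whole row. -/
def S_Cover : Prop := SpP fun _ G v => ¬ Funnel G ∧ Cover G v

/-- Hubs on both sides. -/
def S_HH : Prop := SpP fun _ G _ => ¬ Funnel G ∧ ¬ HR G ∧ ¬ HL G

theorem sd1_ex [Fintype J] {Γ : SimpleGraph (Vx J)} {η : ℤ × ℤ →+ ℤ} {f : Vx J → ℤ} {v : Vx J}
    (hJ : Nonempty J) (hG : Good Γ) (hN : NJ Γ Set.univ) (ev : ∀ a, Even (η a)) (R : RH Γ η v f)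
    (E : Spike Γ η v) : ∃ an G, SD1 Γ η f v an G := by
  obtain ⟨u, hu⟩ := id E
  obtain ⟨an, A⟩ := exists_an1 R ((hu u).2 rfl)
  obtain ⟨G, H⟩ := exists_fr1 hJ hG.nl hN ev R ((hu u).2 rfl) A
  exact ⟨an, G, hJ, hG, hN, ev, R, E, A, H⟩

theorem spike_of (h1 : S_Free) (h2 : S_Fun) (h3 : S_HH) : S_Spike := by
  intro J _ Γ η v f hJ hG hN ev _ R E
  obtain ⟨an, G, D⟩ := sd1_ex hJ hG hN ev R E
  by_cases a : HR G ∨ HL G
  · exact h1 J Γ η f v an G D a
  by_cases b : Funnel G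
  · exact h2 J Γ η f v an G D b
  exact h3 J Γ η f v an G D ⟨b, fun k => a (Or.inl k), fun k => a (Or.inr k)⟩

end Pool.Agent.P.MP_08fd93_co.FA
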