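import Pool.Agent.P.MP_08fd93_co.FA.Sp0
import Pool.Agent.P.MP_08fd93_co.FK.K6

/-! Depth one, the root is a spike: one side has no hub. -/

set_option autoImplicit false

namespace Pool.Agent.P.MP_08fd93_co.FA

open OV FZ FR FN FK

variable {J : Type} {Γ : SimpleGraph (Vx J)} {η : ℤ × ℤ →+ ℤ} {f : Vx J → ℤ} {v l r z y : Vx J}
  {an : Vx J → Vx J} {G : VD J}

/-- No funnel, no hub on the right, the left side is broad. -/
def S_S1p : Prop := SpP fun _ G v => ¬ Funnel G ∧ HR G ∧ ∃ l, EdL G v l ∧ G.an l ≠ G.xl v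

/-- A funnel with a side without hub. -/
def S_FunF : Prop := SpP fun _ G _ => Funnel G ∧ (HR G ∨ HL G)

theorem SD1.mir (D : SD1 Γ η f v an G) : SD1 Γ η f v an (mir G) :=
  ⟨D.hJ, D.hG, D.hN, D.ev, D.R, D.E, D.A, fr1_mir D.H⟩

theorem SD1.chg (D : SD1 Γ η f v an G) {an' : Vx J → Vx J} (A : An1 Γ f v an') :
    SD1 Γ η f v an' (chg G an') :=
  ⟨D.hJ, D.hG, D.hN, D.ev, D.R, D.E, A, fr1_chg D.H D.R D.A A⟩

theorem hr_mir (h : HL G) : HR (mir G) := fun k a z b c y d e => neg_le_neg (h k a z b c y d e)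

theorem hl_mir (h : HR G) : HL (mir G) := fun k a z b c y d e => neg_le_neg (h k a z b c y d e)

theorem SD1.sr [Fintype J] (D : SD1 Γ η f v an G) : ∃ l r, SR G v l r :=
  sr_ex D.hG D.H D.R D.A D.E

theorem SR.edL (h : SR G v l r) : EdL G v l := ⟨h.l1, h.hl.2, h.hl.2 ▸ h.hl.1.2.2⟩

theorem SR.edR (h : SR G v l r) : EdR G v r := ⟨h.r1, h.hr.2, h.hr.2 ▸ h.hr.1.2.2⟩

/-- on a narrow left side only the end of the side edge can be a hub -/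
theorem SR.hub_l (h : SR G v l r) (e : G.an l = G.xl v) (a : G.Γ.Adj z v) (n : z ∉ G.L 0)
    (hy : y ∈ G.L 0) (b : G.Γ.Adj z y) (lt : G.ρ y < G.ρ (G.xl v)) : z = l := by
  have V := h.sv.vf
  have nk : G.an l ∉ G.K := e ▸ V.l_nk h.u0.1
  have hb := V.brg h.l1 (h.sv.pr l) (p := G.xl v) (Or.inl (by rw [(V.xo _ nk).1, e]))
  have c := h.sv.kid h.vk
  have l1 := h.sv.isL_le h.hl.1 (h.rows.la c.1) (c.2.trans h.hl.2.symm)
  have Ly : G.Lf 1 (G.xl v) l y := Or.inl ⟨hy, lt⟩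
  have Rv : G.Rg 1 (G.xl v) l v := Or.inr (Or.inr ⟨h.vk, h.fv, by rw [t_empty nk]; exact id, l1.2⟩)
  have e0 : ∀ {x x'}, G.Lf 1 (G.xl v) l x → G.Rg 1 (G.xl v) l x' → ¬ G.Γ.Adj x x' :=
    fun p q => (V.ncv hb (Set.empty_subset _) Set.finite_empty (fun _ m => m.elim) p q).1
  rcases V.att (V.k_st h.vk h.fv) a.symm with k | k | k | k
  · exact ((V.ncv hb (Set.singleton_subset_iff.2 k) (Set.finite_singleton z)
      (isConn_single z) Ly Rv).2 ⟨⟨z, rfl, b.symm⟩, ⟨z, rfl, a.symm⟩⟩).elim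
  · exact absurd k n
  · rcases lt_trichotomy (G.ρ z) (G.ρ l) with q | q | q
    exacts [absurd a (e0 (Or.inr (Or.inl ⟨k, q⟩)) Rv), h.rows.inj k h.l1 q,
      absurd b.symm (e0 Ly (Or.inr (Or.inl ⟨k, q⟩)))]
  · exact absurd (h.sv.t_mem ⟨k.1, h.vk, V.kn z k.1 v h.vk a⟩) a.ne

theorem free_r [Fintype J] (h1 : S_S1p) (h2 : S_S2) (h3 : S_FunF) (D : SD1 Γ η f v an G)
    (hr : HR G) : ∃ c, Col1 Γ ∅ c := by
  by_cases fu : Funnel G
  · exact h3 J Γ η f v an G D ⟨fu, Or.inl hr⟩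
  obtain ⟨l, r, h⟩ := D.sr
  have R := h.rows
  have V := h.sv.vf
  by_cases e : G.an l = G.xl v
  swap
  · exact h1 J Γ η f v an G D ⟨fu, hr, l, SR.edL h, e⟩
  by_cases hl : HL G
  · by_cases e' : G.an (G.nx r) = G.xr v
    · exact h2 J Γ η f v an G D ⟨hr, hl, l, r, SR.edL h, SR.edR h, e, e'⟩
    obtain ⟨n1, n2, -⟩ := R.nx_mem h.r1
    refine h1 J Γ η f v an _ D.mir ⟨fu, hr_mir hl, G.nx r, ⟨n1, ?_, (SR.edR h).2.2⟩, e'⟩
    rw [mir_nx, R.uw.lf _ _ n1, n2, add_sub_cancel_right, R.l_rho h.r1]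
    exact h.hr.2
  simp only [HL, not_forall, not_le] at hl
  obtain ⟨k, hk, z, a, n, y, hy, b, lt⟩ := hl
  obtain ⟨c, rfl⟩ := h.k_tr hk
  obtain ⟨z, rfl⟩ := tr_surj c z
  obtain ⟨y, rfl⟩ := tr_surj c y
  have fk : G.f (tr c v) - 1 = 0 + G.η c := by rw [R.wp.per, h.fv]; ring
  rw [fk, R.uw.ltr] at n hy
  have a' : G.Γ.Adj z v := by simpa [tr_neg] using R.fine.inv (-c) _ _ a
  have b' : G.Γ.Adj z y := by simpa [tr_neg] using R.fine.inv (-c) _ _ b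
  have lt' : G.ρ y < G.ρ (G.xl v) := by
    rw [(V.xtr c v).1] at lt
    obtain ⟨κ, hκ⟩ := R.rho_tr c 0
    rw [(hκ y hy).2, (hκ _ h.u0.1).2] at lt
    omega
  obtain rfl := SR.hub_l h e a' n hy b' lt'
  have A := an1_upa D.R D.A (D.H.eΓ ▸ b') (by
    rw [← D.H.ef, R.uw.lf _ _ hy, R.uw.lf _ _ h.l1]; rfl)
  have ny : y ∉ G.K := V.l_nk hy
  have ez : (chg G (upa an z y)).an z = y := upa_self
  refine h1 J Γ η f v _ _ (D.chg A) ⟨fun k => ny (ez ▸ k z h.l1), hr, z, ⟨h.l1, ?_, ?_⟩, ?_⟩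
  · show upa an z y (G.nx z) = v
    rw [upa_ne, ← D.H.ea, h.hl.2]
    intro q
    obtain ⟨n1, n2, -⟩ := R.nx_mem h.l1
    have := l_ne h.sv.lay 1 (i := G.ρ z) (i' := G.ρ (G.nx z)) (by omega)
      (by have := h.n3 1; show _ < _ + G.nn 1; omega)
    exact this (by
      show (G.l 1 _).1 = (G.l 1 _).1
      rw [R.l_rho h.l1, R.l_rho n1, q])
  · rw [ez]
    exact fun q => ny (q ▸ h.vk)
  · rw [ez]
    exact fun q => lt'.ne (congrArg G.ρ q)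

theorem free_of (h1 : S_S1p) (h2 : S_S2) (h3 : S_FunF) : S_Free := fun _ _ _ _ _ _ _ _ D k =>
  k.elim (free_r h1 h2 h3 D) fun k => free_r h1 h2 h3 D.mir (hr_mir k)

theorem spike_all (h1 : S_S1p) (h2 : S_S2) (h3 : S_FunF) (h4 : S_Free → S_Fun)
    (h5 : S_Free → S_HH) : S_Spike :=
  spike_of (free_of h1 h2 h3) (h4 (free_of h1 h2 h3)) (h5 (free_of h1 h2 h3))

end Pool.Agent.P.MP_08fd93_co.FA
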