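import Pool.Agent.P.MP_08fd93_co.FA.Sp1
import Pool.Agent.P.MP_08fd93_co.FB.S1
import Pool.Agent.P.MP_08fd93_co.FL.S3
import Pool.Agent.P.MP_08fd93_co.FZ.U2
import Pool.Agent.P.MP_08fd93_co.FS2.HH6
import Pool.Agent.P.MP_08fd93_co.FL.L4
import Pool.Agent.P.MP_08fd93_co.FR.Ear1

/-! Depth one is complete; the periodic statement follows from depth two. -/

set_option autoImplicit false

namespace Pool.Agent.P.MP_08fd93_co.FA

theorem spike : FZ.S_Spike := spike_all s1p FL.s2 FZ.funF FZ.fun_of FS2.hh_of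

theorem core_of_pit (h : FZ.S_Pit) : FZ.S_Core' :=
  FZ.core_of (FZ.core_of_cases spike FL.long FR.ear h)

end Pool.Agent.P.MP_08fd93_co.FA
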