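import Pool.Agent.P.MP_08fd93_co.FZ.Bridge
import Pool.Agent.P.MP_08fd93_co.FR.Root2
import Pool.Agent.P.MP_08fd93_co.FW.T1
import Pool.Agent.P.MP_08fd93_co.FK.K4

/-! The four remaining cases and the assembly of the periodic statement. -/

set_option autoImplicit false

namespace Pool.Agent.P.MP_08fd93_co.FA

open OV FZ FR

/-- Depth one, the root has one incoming edge. -/
def S_Spike : Prop := ∀ (J : Type) [Fintype J] (Γ : SimpleGraph (Vx J)) (η : ℤ × ℤ →+ ℤ)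
  (v : Vx J) (f : Vx J → ℤ), Nonempty J → Good Γ → NJ Γ Set.univ → (∀ a, Even (η a)) →
  IsH Γ η {v} (fun _ => 0) f → RH Γ η v f → Spike Γ η v → ∃ c, Col1 Γ ∅ c

/-- Depth one, the root is long and there is no spike. -/
def S_Long : Prop := ∀ (J : Type) [Fintype J] (Γ : SimpleGraph (Vx J)) (η : ℤ × ℤ →+ ℤ)
  (v : Vx J) (f : Vx J → ℤ), Nonempty J → Good Γ → NJ Γ Set.univ → (∀ a, Even (η a)) →
  IsH Γ η {v} (fun _ => 0) f → RH Γ η v f → FR.Long Γ η v → NoSpike Γ η → ∃ c, Col1 Γ ∅ c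

/-- Depth one, all roots are ears. -/
def S_Ear : Prop := ∀ (J : Type) [Fintype J] (Γ : SimpleGraph (Vx J)) (η : ℤ × ℤ →+ ℤ)
  (v : Vx J) (f : Vx J → ℤ), Nonempty J → Good Γ → NJ Γ Set.univ → (∀ a, Even (η a)) →
  IsH Γ η {v} (fun _ => 0) f → RH Γ η v f → Ear Γ η v → AllEar Γ η → ∃ c, Col1 Γ ∅ c

/-- Depth two. -/
def S_Pit : Prop := ∀ (J : Type) [Fintype J] (Γ : SimpleGraph (Vx J)) (η : ℤ × ℤ →+ ℤ)
  (c1 c2 : ℤ × ℤ) (l1 l2 : ℤ → Vx J), Nonempty J → Good Γ → NJ Γ Set.univ →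
  FW.Rt Γ η c1 c2 l1 l2 → ∃ c, Col1 Γ ∅ c

theorem core (hS : S_Spike) (hL : S_Long) (hE : S_Ear) (hP : S_Pit) : S_Core := by
  intro J _ Γ hJ hG hN
  obtain ⟨η, ev, ⟨h, c, -, hc, -, e⟩ | ⟨h, c, -, hc, -, e⟩ | ⟨c1, c2, l1, l2, h⟩⟩ :=
    FW.root6 hJ hG
  · exact FK.zero hJ hG hN ev h hc e
  · obtain ⟨θ, v, f, ev', hf, R, k | k | k⟩ := root1' hJ hG ev h hc e
    exacts [hS J Γ θ v f hJ hG hN ev' hf R k, hL J Γ θ v f hJ hG hN ev' hf R k.1 k.2,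
      hE J Γ θ v f hJ hG hN ev' hf R k.1 k.2]
  · exact hP J Γ η c1 c2 l1 l2 hJ hG hN h

end Pool.Agent.P.MP_08fd93_co.FA
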